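import Pool.Agent.X274.DT.Alt

/-!
# The first fundamental theorem with determinants, in coordinates
-/

set_option autoImplicit false
set_option linter.unusedSectionVars false

open Finset Function

namespace Pool.Agent.X274.DT

variable {K : Type} [Field K] {B : Type} [Fintype B] [DecidableEq B] {S : Type} [DecidableEq S]
  {ι : Type} [DecidableEq ι]

/-- products of pairings and determinants in which every variable of `A` occurs once -/
inductive GenF (κ : B → ι) (Q : Matrix B B K) (star : ι → ι) (s : K) (c : S → ι) :
    Finset S → ((S → B) → K) → Prop
  | one : GenF κ Q star s c ∅ fun _ => 1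
  | pair {A : Finset S} {g : (S → B) → K} (a b : S) (hab : a ≠ b) (ha : a ∉ A) (hb : b ∉ A)
      (hc : c b = star (c a)) (h : GenF κ Q star s c A g) :
      GenF κ Q star s c (insert a (insert b A)) fun J =>
        (if κ (J a) = c a ∧ κ (J b) = c b then Q (J a) (J b) else 0) * g J
  | det {A : Finset S} {g : (S → B) → K} (i : ι) (hi : star i ≠ i ∨ s = 1) {d : ℕ}
      (e : Fin d ↪ S) (t : Fin d ↪ B) (ht : univ.map t = blk κ i) (he : ∀ m, c (e m) = i)
      (hA : ∀ m, e m ∉ A) (h : GenF κ Q star s c A g) :
      GenF κ Q star s c (univ.map e ∪ A) fun J => dt e t J * g J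

variable {κ : B → ι} {Q R : Matrix B B K} {star : ι → ι} {s : K} {c : S → ι}

/-- the span of the products -/
def TT (κ : B → ι) (Q : Matrix B B K) (star : ι → ι) (s : K) (c : S → ι) (A : Finset S) :
    Submodule K ((S → B) → K) := Submodule.span K {g | GenF κ Q star s c A g}

/-- multiplication with a function -/
def mulL (q : (S → B) → K) : ((S → B) → K) →ₗ[K] ((S → B) → K) where
  toFun g := fun J => q J * g J
  map_add' g h := by
    funext J
    exact mul_add _ _ _
  map_smul' a g := by
    funext J
    exact mul_left_comm _ _ _

theorem mul_TT {A A' : Finset S} {q : (S → B) → K}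
    (h : ∀ g, GenF κ Q star s c A g → GenF κ Q star s c A' fun J => q J * g J)
    {g : (S → B) → K} (hg : g ∈ TT κ Q star s c A) : (fun J => q J * g J) ∈ TT κ Q star s c A' := by
  have h1 : mulL q g ∈ (TT κ Q star s c A).map (mulL q) := Submodule.mem_map_of_mem hg
  unfold TT at h1 ⊢
  rw [Submodule.map_span] at h1
  refine Submodule.span_mono ?_ h1
  rintro _ ⟨g', hg', rfl⟩
  exact h g' hg'

/-- functions of no variables are constant -/
theorem const_of [Fintype S] {f : (S → B) → K} (h : Act κ c ∅ f) (J J' : S → B) : f J = f J' := by
  have h1 : ∀ U : Finset S, f (U.piecewise J J') = f J' := by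
    intro U
    induction U using Finset.induction_on with
    | empty => rw [piecewise_empty]
    | insert j U hj ih => rw [piecewise_insert, h.indep j (notMem_empty j), ih]
  have h2 := h1 univ
  rwa [piecewise_univ] at h2

theorem exists_emb {X : Type} {U : Finset X} {d : ℕ} (h : U.card = d) :
    ∃ e : Fin d ↪ X, univ.map e = U := by
  classical
  let E := (Finset.equivFinOfCardEq h).symm
  refine ⟨⟨fun m => (E m : X), fun a b hab => E.injective (Subtype.ext hab)⟩, ?_⟩
  ext x
  rw [mem_map]
  constructor
  · rintro ⟨m, -, rfl⟩
    exact (E m).2
  · intro hx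
    exact ⟨E.symm ⟨x, hx⟩, mem_univ _, by
      show ((E (E.symm ⟨x, hx⟩) : U) : X) = x
      rw [Equiv.apply_symm_apply]⟩

/-- **The first fundamental theorem with determinants.** -/
theorem fftD [CharZero K] [Fintype S] (hs : s = 1 ∨ s = -1) (hstar : ∀ i, star (star i) = i)
    (hQb : ∀ a b, κ b ≠ star (κ a) → Q a b = 0) (hRb : ∀ a b, κ b ≠ star (κ a) → R a b = 0)
    (hQs : ∀ a b, Q a b = s * Q b a) (hQR : Q * R = 1)
    (hcard : ∀ i, (blk κ (star i)).card = (blk κ i).card) (n : ℕ) :
    ∀ A : Finset S, A.card = n → ∀ (lam : ι → K) (f : (S → B) → K), Act κ c A f →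
      InvL κ Q star s lam A f →
      (∀ j, lam j * ((blk κ j).card : K) = ((A.filter fun x => c x = j).card : K) -
        ((A.filter fun x => c x = star j).card : K)) → f ∈ TT κ Q star s c A := by
  have hss : s * s = 1 := by rcases hs with h | h <;> rw [h] <;> norm_num
  induction n using Nat.strong_induction_on with
  | _ n ih =>
  intro A hAn lam f hact hinv hlam
  rcases A.eq_empty_or_nonempty with rfl | ⟨a0, ha0⟩
  · by_cases hne : Nonempty (S → B)
    · obtain ⟨J0⟩ := hne
      have h1 : f = f J0 • fun _ => (1 : K) := by
        funext J
        rw [Pi.smul_apply, smul_eq_mul, mul_one]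
        exact const_of hact J J0
      rw [h1]
      exact Submodule.smul_mem _ _ (Submodule.subset_span GenF.one)
    · have h1 : f = 0 := by
        funext J
        exact absurd ⟨J⟩ hne
      rw [h1]
      exact Submodule.zero_mem _
  by_cases hf0 : f = 0
  · rw [hf0]
    exact Submodule.zero_mem _
  obtain ⟨i, hi⟩ : ∃ i, i = c a0 := ⟨_, rfl⟩
  obtain ⟨d, hd⟩ : ∃ d, d = (blk κ i).card := ⟨_, rfl⟩
  have hdpos : 0 < d := by
    obtain ⟨J, hJ⟩ : ∃ J, f J ≠ 0 := by
      by_contra hcon
      push Not at hcon
      exact hf0 (funext hcon)
    rw [hd, Finset.card_pos]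
    exact ⟨J a0, by rw [mem_blk, hact.typed J hJ a0 ha0, hi]⟩
  have hdK : (d : K) ≠ 0 := Nat.cast_ne_zero.2 hdpos.ne'
  obtain ⟨A₁, hA₁⟩ : ∃ A₁, A₁ = A.filter fun j => c j = i := ⟨_, rfl⟩
  have hA₁A : A₁ ⊆ A := by rw [hA₁]; exact filter_subset _ _
  have hcA₁ : ∀ a ∈ A₁, c a = i := fun a ha => by
    rw [hA₁, mem_filter] at ha
    exact ha.2
  obtain ⟨M, hM⟩ : ∃ M : K, M = (d : K) - (if star i = i then s else 0) + lam (star i) :=
    ⟨_, rfl⟩
  -- the Casimir identity
  have h1 : ∀ w, Act κ c A w → InvL κ Q star s lam A w → ∀ a ∈ A₁,
      (fun J => M * w J + ∑ b ∈ A₁.erase a, sw a b w J) ∈ TT κ Q star s c A := by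
    intro w hw hI a ha
    have haA := hA₁A ha
    have hca := hcA₁ a ha
    have h2 : ∀ b ∈ (A.filter fun j => c j = star i).erase a,
        (fun J => (if κ (J a) = c a ∧ κ (J b) = c b then Q (J a) (J b) else 0) *
          con κ R i a b w J) ∈ TT κ Q star s c A := by
      intro b hb
      have hab : a ≠ b := (Finset.ne_of_mem_erase hb).symm
      have hb' := Finset.mem_of_mem_erase hb
      rw [mem_filter] at hb'
      have hba : b ∈ A.erase a := Finset.mem_erase.2 ⟨hab.symm, hb'.1⟩
      have hAe : insert a (insert b ((A.erase a).erase b)) = A := by
        rw [insert_erase hba, insert_erase haA]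
      have hcc : ((A.erase a).erase b).card < n := by
        rw [← hAn]
        exact Finset.card_lt_card (Finset.ssubset_of_subset_of_ssubset
          (Finset.erase_subset _ _) (Finset.erase_ssubset haA))
      have h3 := ih _ hcc ((A.erase a).erase b) rfl lam (con κ R i a b w) (act_con hw hab)
        (inv_con hss hstar hQb hQs hQR hI hab haA hb'.1) (fun j => by
          rw [hlam j]
          have e1 : ∀ l, (A.filter fun x => c x = l).card =
              (((A.erase a).erase b).filter fun x => c x = l).card +
                (if c a = l then 1 else 0) + (if c b = l then 1 else 0) := by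
            intro l
            conv_lhs => rw [← hAe]
            rw [filter_insert, filter_insert]
            have ha' : a ∉ ((A.erase a).erase b) := fun h =>
              (Finset.ne_of_mem_erase (Finset.mem_of_mem_erase h)) rfl
            have hb'' : b ∉ ((A.erase a).erase b) := fun h => (Finset.ne_of_mem_erase h) rfl
            split_ifs with h4 h5 h5
            · have k1 : b ∉ ((A.erase a).erase b).filter fun x => c x = l := fun h =>
                hb'' (mem_of_mem_filter _ h)
              have k2 : a ∉ insert b (((A.erase a).erase b).filter fun x => c x = l) := by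
                intro h
                rcases mem_insert.1 h with h | h
                · exact hab h
                · exact ha' (mem_of_mem_filter _ h)
              rw [card_insert_of_notMem k2, card_insert_of_notMem k1]
            · have k2 : a ∉ ((A.erase a).erase b).filter fun x => c x = l := fun h =>
                ha' (mem_of_mem_filter _ h)
              rw [card_insert_of_notMem k2]
            · have k1 : b ∉ ((A.erase a).erase b).filter fun x => c x = l := fun h =>
                hb'' (mem_of_mem_filter _ h)
              rw [card_insert_of_notMem k1]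
            · rfl
          rw [e1, e1, hca, hb'.2]
          push_cast
          have e2 : (i = star j) ↔ (star i = j) :=
            ⟨fun h => by rw [h, hstar], fun h => by rw [← h, hstar]⟩
          have e3 : (star i = star j) ↔ (i = j) :=
            ⟨fun h => by rw [← hstar i, h, hstar], fun h => by rw [h]⟩
          simp only [e2, e3]
          ring)
      have h4 := mul_TT (κ := κ) (Q := Q) (star := star) (s := s) (c := c)
        (A := (A.erase a).erase b) (A' := A)
        (q := fun J => if κ (J a) = c a ∧ κ (J b) = c b then Q (J a) (J b) else 0)
        (fun g hg => by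
          have h5 := GenF.pair a b hab
            (fun h => (Finset.ne_of_mem_erase (Finset.mem_of_mem_erase h)) rfl)
            (fun h => (Finset.ne_of_mem_erase h) rfl) (by rw [hb'.2, hca]) hg
          rwa [hAe] at h5) h3
      exact h4
    have h5 := Submodule.smul_mem _ s (Submodule.sum_mem _ h2)
    convert h5 using 1
    funext J
    rw [Pi.smul_apply, Finset.sum_apply, smul_eq_mul]
    by_cases hJ : ∀ j ∈ A, κ (J j) = c j
    · have h6 := cas hss hstar hQb hRb hQs hQR hI hJ haA hca
      rw [hM, hd, hA₁, h6]
      congr 1
      refine Finset.sum_congr rfl fun b hb => ?_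
      have hb' := Finset.mem_of_mem_erase hb
      rw [mem_filter] at hb'
      rw [if_pos ⟨hJ a haA, hJ b hb'.1⟩]
    · push Not at hJ
      obtain ⟨j, hjA, hj⟩ := hJ
      have h6 : ∀ g : (S → B) → K, Act κ c A g → g J = 0 := by
        intro g hg
        by_contra h0
        exact hj (hg.typed J h0 j hjA)
      rw [h6 w hw, mul_zero, zero_add, Finset.sum_eq_zero, Finset.sum_eq_zero, mul_zero]
      · intro b hb
        by_cases hja : j = a
        · rw [if_neg, zero_mul]
          rw [← hja]
          exact fun h => hj h.1
        by_cases hjb : j = b
        · rw [if_neg, zero_mul]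
          rw [← hjb]
          exact fun h => hj h.2
        have hab : a ≠ b := (Finset.ne_of_mem_erase hb).symm
        have h7 : con κ R i a b w J = 0 := by
          by_contra h0
          exact hj ((act_con hw hab).typed J h0 j
            (Finset.mem_erase.2 ⟨hjb, Finset.mem_erase.2 ⟨hja, hjA⟩⟩))
        rw [h7, mul_zero]
      · intro b hb
        have hb' := Finset.mem_of_mem_erase hb
        exact h6 _ (act_sw hw haA (hA₁A hb') (by rw [hca, hcA₁ b hb']))
  -- the coefficient is not zero
  have hC : ∀ r : ℕ, 1 ≤ r → r ≤ A₁.card → (r < d ∨ (r ≤ d ∧ star i = i ∧ s = -1)) →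
      (A₁.card : K) + (r : K) * (M - r) ≠ 0 := by
    intro r hr hrA hrd
    by_cases hii : star i = i
    · have hl0 : lam (star i) = 0 := by
        have h2 := hlam i
        rw [hii, sub_self, ← hd] at h2
        rw [hii]
        exact (mul_eq_zero.1 h2).resolve_right hdK
      rw [hM, if_pos hii, hl0, add_zero]
      rcases hs with h2 | h2
      · have h3 : r < d := by
          rcases hrd with h3 | ⟨-, -, h3⟩
          · exact h3
          · exfalso
            rw [h2] at h3
            have : (2 : K) = 0 := by linear_combination h3
            exact two_ne_zero this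
        obtain ⟨δ, rfl⟩ := Nat.exists_eq_add_of_lt h3
        have h4 : (A₁.card : K) + (r : K) * (((r + δ + 1 : ℕ) : K) - s - r) =
            ((A₁.card + r * δ : ℕ) : K) := by
          rw [h2]
          push_cast
          ring
        rw [h4]
        exact Nat.cast_ne_zero.2 (by omega)
      · have h3 : r ≤ d := by
          rcases hrd with h3 | ⟨h3, -⟩
          · exact h3.le
          · exact h3
        obtain ⟨δ, rfl⟩ := Nat.exists_eq_add_of_le h3
        have h4 : (A₁.card : K) + (r : K) * (((r + δ : ℕ) : K) - s - r) =
            ((A₁.card + r * (δ + 1) : ℕ) : K) := by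
          rw [h2]
          push_cast
          ring
        rw [h4]
        exact Nat.cast_ne_zero.2 (by omega)
    · have h3 : r < d := by
        rcases hrd with h3 | ⟨-, h3, -⟩
        · exact h3
        · exact absurd h3 hii
      have h2 := hlam (star i)
      rw [hstar, hcard, ← hd, ← hA₁] at h2
      intro h0
      rw [hM, if_neg hii, sub_zero] at h0
      obtain ⟨δ, hδ⟩ := Nat.exists_eq_add_of_lt h3
      have h4 : ((A₁.card * (δ + 1) + r * (A.filter fun x => c x = star i).card +
          r * d * (δ + 1) : ℕ) : K) = 0 := by
        have h5 : (d : K) = r + δ + 1 := by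
          rw [hδ]
          push_cast
          ring
        push_cast
        linear_combination (d : K) * h0 - (r : K) * h2 + (-(A₁.card : K) - (r : K) * d) * h5
      rw [Nat.cast_eq_zero] at h4
      have h5 : 0 < A₁.card * (δ + 1) := Nat.mul_pos (by omega) (Nat.succ_pos δ)
      exact h5.ne' (Nat.add_eq_zero_iff.1 (Nat.add_eq_zero_iff.1 h4).1).1
  -- alternating variables
  have h2 : ∀ m : ℕ, ∀ A' ⊆ A₁, A'.Nonempty → A'.card + m = d → ∀ w, Act κ c A w →
      InvL κ Q star s lam A w → Altn A' w → w ∈ TT κ Q star s c A := by
    intro m
    induction m with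
    | zero =>
      intro A' hA' hne hc w hw hI halt
      rw [add_zero] at hc
      by_cases hdet : star i ≠ i ∨ s = 1
      · obtain ⟨e, he⟩ := exists_emb hc
        obtain ⟨t, ht⟩ := exists_emb hd.symm
        have heA' : ∀ m, e m ∈ A' := fun m => by
          rw [← he]
          exact Finset.mem_map_of_mem e (mem_univ m)
        have heA : ∀ m, e m ∈ A := fun m => hA₁A (hA' (heA' m))
        have hec : ∀ m, c (e m) = i := fun m => hcA₁ _ (hA' (heA' m))
        have halt' : Altn (univ.map e) w := by
          rw [he]
          exact halt
        have hsub : A' ⊆ A := hA'.trans hA₁A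
        have hcc : (A \ A').card < n := by
          rw [← hAn]
          exact Finset.card_lt_card (Finset.sdiff_ssubset hsub hne)
        have hAe : univ.map e ∪ (A \ A') = A := by
          rw [he]
          exact Finset.union_sdiff_of_subset hsub
        have h3 := ih _ hcc (A \ A') rfl _ _ (act_ins e ht hw heA hec halt' A' he.symm)
          (inv_ins e ht hw heA hec halt' hQs hI A' he.symm) (fun j => by
            have e1 : ∀ l, ((A.filter fun x => c x = l).card : K) =
                (((A \ A').filter fun x => c x = l).card : K) + (if l = i then (d : K) else 0) := by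
              intro l
              have e2 : A.filter (fun x => c x = l) = (A \ A').filter (fun x => c x = l) ∪
                  A'.filter (fun x => c x = l) := by
                rw [← filter_union, Finset.sdiff_union_of_subset hsub]
              have e3 : Disjoint ((A \ A').filter (fun x => c x = l))
                  (A'.filter (fun x => c x = l)) :=
                Finset.disjoint_filter_filter Finset.sdiff_disjoint
              rw [e2, card_union_of_disjoint e3]
              push_cast
              congr 1
              by_cases hl : l = i
              · subst hl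
                rw [if_pos rfl, Finset.filter_true_of_mem fun x hx => hcA₁ x (hA' hx), hc]
              · rw [if_neg hl, Finset.filter_false_of_mem, card_empty, Nat.cast_zero]
                intro x hx h
                exact hl (by rw [← h, hcA₁ x (hA' hx)])
            have e4 := hlam j
            rw [e1, e1] at e4
            have e5 : (if j = i then (1 : K) else 0) * ((blk κ j).card : K) =
                if j = i then (d : K) else 0 := by
              split_ifs with h
              · rw [h, ← hd, one_mul]
              · rw [zero_mul]
            have e6 : (if star j = i then (1 : K) else 0) * ((blk κ j).card : K) =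
                if star j = i then (d : K) else 0 := by
              split_ifs with h
              · rw [← hcard, h, ← hd, one_mul]
              · rw [zero_mul]
            linear_combination e4 - e5 + e6)
        have h4 := mul_TT (κ := κ) (Q := Q) (star := star) (s := s) (c := c)
          (A := A \ A') (A' := A) (q := fun J => dt e t J)
          (fun g hg => by
            have h5 := GenF.det i hdet e t ht hec (fun m h => by
              rw [Finset.mem_sdiff] at h
              exact h.2 (heA' m)) hg
            rwa [hAe] at h5) h3
        have h5 : w = fun J => dt e t J * w (ins e t J) :=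
          funext fun J => det_mul e ht hw heA hec halt' J
        rw [h5]
        exact h4
      · push Not at hdet
        have hsm : s = -1 := hs.resolve_left hdet.2
        refine coef (TT κ Q star s c A) hA' hne M (fun a ha => h1 w hw hI a (hA' ha)) halt ?_
          (hC _ (Finset.card_pos.2 hne) (Finset.card_le_card hA') (Or.inr ⟨hc.le, hdet.1, hsm⟩))
        intro j hj
        rw [Finset.mem_sdiff] at hj
        have h3 := act_alt hw (hA'.trans hA₁A) (hA₁A hj.1) fun a ha => by
          rw [hcA₁ a (hA' ha), hcA₁ j hj.1]
        have h4 : alt A' j w = 0 := by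
          refine pigeon h3 (A' := insert j A') (i := i) ?_ ?_ ?_ (alt_step halt hj.2)
          · intro x hx
            rcases mem_insert.1 hx with rfl | hx
            · exact hA₁A hj.1
            · exact hA₁A (hA' hx)
          · intro x hx
            rcases mem_insert.1 hx with rfl | hx
            · exact hcA₁ x hj.1
            · exact hcA₁ x (hA' hx)
          · rw [card_insert_of_notMem hj.2, ← hd, hc]
            omega
        rw [h4]
        exact Submodule.zero_mem _
    | succ m ihm =>
      intro A' hA' hne hc w hw hI halt
      refine coef (TT κ Q star s c A) hA' hne M (fun a ha => h1 w hw hI a (hA' ha)) halt ?_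
        (hC _ (Finset.card_pos.2 hne) (Finset.card_le_card hA') (Or.inl (by omega)))
      intro j hj
      rw [Finset.mem_sdiff] at hj
      refine ihm (insert j A') ?_ ⟨j, mem_insert_self _ _⟩ ?_ _ ?_ ?_ (alt_step halt hj.2)
      · intro x hx
        rcases mem_insert.1 hx with rfl | hx
        · exact hj.1
        · exact hA' hx
      · rw [card_insert_of_notMem hj.2]
        omega
      · exact act_alt hw (hA'.trans hA₁A) (hA₁A hj.1) fun a ha => by
          rw [hcA₁ a (hA' ha), hcA₁ j hj.1]
      · exact inv_alt hI (hA'.trans hA₁A) (hA₁A hj.1)
  refine h2 (d - 1) {a0} ?_ (singleton_nonempty a0) ?_ f hact hinv ?_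
  · rw [singleton_subset_iff, hA₁, mem_filter]
    exact ⟨ha0, hi.symm⟩
  · rw [card_singleton]
    omega
  · intro a ha b hb hab
    rw [mem_singleton] at ha hb
    exact absurd (ha.trans hb.symm) hab

end Pool.Agent.X274.DT
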