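import Pool.Agent.X274.DT.Closed
import Pool.Agent.Y79.SV.Fftdv

/-!
# Descent of the first fundamental theorem with determinants
-/

set_option autoImplicit false
set_option linter.unusedSectionVars false

open Matrix Finset
open Pool.Agent.Y142.SU (Herm SULie)
open Pool.Agent.Y142.SV (LieV Selfadj)
open Pool.Agent.Y177.SU

namespace Pool.Agent.X274.DT

variable {K : Type} [Field K] [CharZero K] {N k : ℕ} {𝒞 : Subalgebra K (Matrix (Fin N) (Fin N) K)}
variable {Ω : Type} [Field Ω] [Algebra K Ω]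

theorem up_mulVec (A : Matrix (Fin N) (Fin N) K) (z : Fin N → K) :
    up Ω A *ᵥ upv Ω z = upv Ω (A *ᵥ z) := by
  funext a
  unfold Matrix.mulVec dotProduct upv up
  rw [map_sum]
  refine Finset.sum_congr rfl fun b _ => ?_
  show algebraMap K Ω (A a b) * algebraMap K Ω (z b) = algebraMap K Ω (A a b * z b)
  rw [map_mul]

theorem desc_P {J : Matrix (Fin N) (Fin N) K} : ∀ b ∈ PP (up Ω J) (bc 𝒞 Ω),
    ∃ (d : ℕ) (c : Fin d → Ω) (b' : Fin d → (Fin N → K) → (Fin N → K) → K),
      (∀ i, b' i ∈ PP J 𝒞) ∧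
      ∀ x y, b (upv Ω x) (upv Ω y) = ∑ i, c i * algebraMap K Ω (b' i x y) := by
  rintro b ⟨a, ha, hab⟩
  obtain ⟨c, hc⟩ := coords (Module.finBasis K 𝒞) ha
  refine ⟨_, c, fun i x y => (((Module.finBasis K 𝒞 i : 𝒞) : Matrix (Fin N) (Fin N) K) *ᵥ x) ⬝ᵥ
    J *ᵥ y, fun i => ⟨_, (Module.finBasis K 𝒞 i).2, fun _ _ => rfl⟩, fun x y => ?_⟩
  rw [hab, hc, pairing]

/-- an element of a finite-dimensional subspace in coordinates -/
theorem exists_coordsK (W : Submodule K Ω) [FiniteDimensional K W] :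
    ∃ (d : ℕ) (c : Fin d → Ω) (lm : Fin d → Ω →ₗ[K] K),
      ∀ z ∈ W, z = ∑ i, c i * algebraMap K Ω (lm i z) := by
  obtain ⟨P, hP⟩ := LinearMap.exists_leftInverse_of_injective W.subtype
    (LinearMap.ker_eq_bot.2 W.injective_subtype)
  obtain ⟨b⟩ : Nonempty (Module.Basis (Fin (Module.finrank K W)) K W) := ⟨Module.finBasis K W⟩
  refine ⟨_, fun i => (b i : Ω), fun i => b.coord i ∘ₗ P, fun z hz => ?_⟩
  have h1 : P z = ⟨z, hz⟩ := LinearMap.congr_fun hP ⟨z, hz⟩
  have h3 : ((∑ t, b.repr (P z) t • b t : W) : Ω) = (P z : Ω) := by rw [b.sum_repr (P z)]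
  rw [Submodule.coe_sum] at h3
  have h4 : (P z : Ω) = z := by rw [h1]
  rw [h4] at h3
  conv_lhs => rw [← h3]
  refine Finset.sum_congr rfl fun t _ => ?_
  rw [Submodule.coe_smul, Algebra.smul_def, mul_comm]
  rfl

theorem upv_update {m : ℕ} (x : Fin m → Fin N → K) (l : Fin m) (y : Fin N → K) :
    (fun j => upv Ω (Function.update x l y j)) =
      Function.update (fun j => upv Ω (x j)) l (upv Ω y) := by
  funext j
  by_cases h : j = l
  · subst h
    rw [Function.update_self, Function.update_self]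
  · rw [Function.update_of_ne h, Function.update_of_ne h]

theorem upv_add (x y : Fin N → K) : upv Ω (x + y) = upv Ω x + upv Ω y := by
  funext i
  exact map_add _ _ _

theorem upv_smul (c : K) (x : Fin N → K) : upv Ω (c • x) = algebraMap K Ω c • upv Ω x := by
  funext i
  exact map_mul _ _ _

/-- the alternating form over the smaller field -/
def descAlt {m : ℕ} (ω : (Fin N → Ω) [⋀^Fin m]→ₗ[Ω] Ω) (lm : Ω →ₗ[K] K) :
    (Fin N → K) [⋀^Fin m]→ₗ[K] K where
  toFun x := lm (ω fun j => upv Ω (x j))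
  map_update_add' := by
    intro inst x l y z
    have : inst = instDecidableEqFin _ := Subsingleton.elim _ _
    subst this
    rw [upv_update, upv_update, upv_update, upv_add, AlternatingMap.map_update_add, map_add]
  map_update_smul' := by
    intro inst x l c y
    have : inst = instDecidableEqFin _ := Subsingleton.elim _ _
    subst this
    rw [upv_update, upv_update, upv_smul, AlternatingMap.map_update_smul, smul_eq_mul,
      ← Algebra.smul_def, map_smul]
  map_eq_zero_of_eq' := by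
    intro x i j hij hne
    rw [ω.map_eq_zero_of_eq (fun j => upv Ω (x j)) (by rw [hij]) hne, map_zero]

theorem desc_D {n : ℕ} {al : Prop} : ∀ m, ∀ δ ∈ DD (bc 𝒞 Ω) n al m,
    ∃ (d : ℕ) (c : Fin d → Ω) (δ' : Fin d → (Fin m → Fin N → K) → K),
      (∀ i, δ' i ∈ DD 𝒞 n al m) ∧
      ∀ x, δ (fun l => upv Ω (x l)) = ∑ i, c i * algebraMap K Ω (δ' i x) := by
  rintro m δ ⟨hm, hal, ω, hbal, hδ⟩
  let W : Submodule K Ω := Submodule.span K (Set.range fun r : Fin m → Fin N =>
    ω fun j => Pi.single (r j) 1)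
  have : FiniteDimensional K W := FiniteDimensional.span_of_finite K (Set.finite_range _)
  obtain ⟨d, c, lm, hlm⟩ := exists_coordsK W
  refine ⟨d, c, fun i x => descAlt ω (lm i) x, fun i => ⟨hm, hal, descAlt ω (lm i), ?_,
    fun _ => rfl⟩, fun x => ?_⟩
  · intro A hA x l l'
    have h1 : ∀ l, descAlt ω (lm i) (Function.update x l (A *ᵥ x l)) =
        lm i (ω (Function.update (fun j => upv Ω (x j)) l (up Ω A *ᵥ upv Ω (x l)))) := by
      intro l
      show lm i (ω fun j => upv Ω (Function.update x l (A *ᵥ x l) j)) = _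
      rw [upv_update, up_mulVec]
    rw [h1, h1, hbal _ (up_mem hA) (fun j => upv Ω (x j)) l l']
  · rw [hδ]
    refine hlm _ ?_
    have h1 := expand ω.toMultilinearMap (fun j => upv Ω (x j))
    have h2 : ω (fun j => upv Ω (x j)) = ∑ r : Fin m → Fin N, (∏ j, upv Ω (x j) (r j)) *
        ω (fun j => Pi.single (r j) 1) := h1
    rw [h2]
    refine Submodule.sum_mem _ fun r _ => ?_
    have h3 : (∏ j, upv Ω (x j) (r j)) = algebraMap K Ω (∏ j, x j (r j)) := by
      rw [map_prod]
      rfl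
    rw [h3, ← Algebra.smul_def]
    exact Submodule.smul_mem _ _ (Submodule.subset_span ⟨r, rfl⟩)

/-- **The first fundamental theorem with determinants** -/
theorem fft_desc {n : ℕ} {J : Matrix (Fin N) (Fin N) K} (al : Prop)
    (hH : (Herm J 𝒞 ∧ al) ∨ (Selfadj J 𝒞 ∧ (Jᵀ = J → al)))
    (hred : ∀ A ∈ 𝒞, IsNilpotent A → A = 0) (hn : 0 < n)
    (htr : ∀ A : 𝒞, (A : Matrix (Fin N) (Fin N) K).trace =
      (n : K) * LinearMap.trace K 𝒞 (LinearMap.mulLeft K A))
    (φ : MultilinearMap K (fun _ : Fin k => Fin N → K) K)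
    (hφ : ∀ X, SULie J 𝒞 X → ∀ v : Fin k → Fin N → K,
      ∑ j, φ (Function.update v j (X *ᵥ v j)) = 0) :
    (fun v => φ v) ∈ prdSpan (PP J 𝒞) (DD 𝒞 n al) (univ : Finset (Fin k)) := by
  have hcomm : ∀ A ∈ 𝒞, ∀ B ∈ 𝒞, A * B = B * A := by rcases hH with h | h <;> exact h.1.2.2.1
  have : CharZero (AlgebraicClosure K) :=
    charZero_of_injective_algebraMap (algebraMap K (AlgebraicClosure K)).injective
  have hH' : (Herm (up (AlgebraicClosure K) J) (bc 𝒞 _) ∧ al) ∨
      (Selfadj (up (AlgebraicClosure K) J) (bc 𝒞 _) ∧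
        ((up (AlgebraicClosure K) J)ᵀ = up (AlgebraicClosure K) J → al)) := by
    rcases hH with h | h
    · exact Or.inl ⟨bc_herm h.1, h.2⟩
    · refine Or.inr ⟨Pool.Agent.Y79.SV.bc_selfadj h.1, fun h1 => h.2 ?_⟩
      rw [← up_transpose] at h1
      ext i j
      have h2 := congrFun (congrFun h1 i) j
      exact (algebraMap K (AlgebraicClosure K)).injective h2
  have h1 := fft_closed (k := k) al hH' (bc_red hcomm hred) (bc_rank hred htr)
    (bc_exact hcomm hred htr) hn (upf _ φ) (killed φ hφ)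
  obtain ⟨r, hr⟩ := LinearMap.exists_leftInverse_of_injective
    (Algebra.linearMap K (AlgebraicClosure K))
    (LinearMap.ker_eq_bot.2 (algebraMap K (AlgebraicClosure K)).injective)
  have h2 := desc_prdSpan (upv (AlgebraicClosure K)) desc_P desc_D r h1 1
  have h3 : (fun v : Fin k → Fin N → K => r (1 * (fun v => upf (AlgebraicClosure K) φ v)
      (fun j => upv (AlgebraicClosure K) (v j)))) = fun v => φ v := by
    funext v
    simp only [one_mul]
    rw [upf_up]
    exact LinearMap.congr_fun hr (φ v)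
  rw [h3] at h2
  exact h2

end Pool.Agent.X274.DT
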