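import Pool.Agent.X274.DT.Prd
import Pool.Agent.X274.MX.Fft

/-!
# The first fundamental theorem for a product, with determinants
-/

set_option autoImplicit false
set_option linter.unusedSectionVars false

open Matrix Finset
open Pool.Agent.X274.MX (Fun ML Good slice slice_apply comb comb_mem comb_notMem comb_update_left
  comb_update_right comb_update_mem exists_ind exists_coords)

namespace Pool.Agent.X274.DT

variable {F : Type} [Field F] {I : Type} [Fintype I] [DecidableEq I] {N : I → ℕ} {k : ℕ}

/-- the forms in two variables on a product -/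
def PX (P : ∀ i, Set ((Fin (N i) → F) → (Fin (N i) → F) → F)) :
    Set ((∀ i, Fin (N i) → F) → (∀ i, Fin (N i) → F) → F) :=
  {b | ∃ i, ∃ b' ∈ P i, b = fun x y => b' (x i) (y i)}

/-- the forms in `m` variables on a product -/
def DX (D : ∀ i, ∀ m : ℕ, Set ((Fin m → Fin (N i) → F) → F)) (m : ℕ) :
    Set ((Fin m → ∀ i, Fin (N i) → F) → F) :=
  {δ | ∃ i, ∃ δ' ∈ D i m, δ = fun x => δ' fun l => x l i}

variable {P : ∀ i, Set ((Fin (N i) → F) → (Fin (N i) → F) → F)}
  {D : ∀ i, ∀ m : ℕ, Set ((Fin m → Fin (N i) → F) → F)}

/-- **The first fundamental theorem for a product**, for one type of variables -/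
theorem fft_type {s : ∀ i, Set (Matrix (Fin (N i)) (Fin (N i)) F)}
    (hfft : ∀ i m, ∀ ψ : MultilinearMap F (fun _ : Fin m => Fin (N i) → F) F,
      (∀ X ∈ s i, ∀ v : Fin m → Fin (N i) → F,
        ∑ j, ψ (Function.update v j (X *ᵥ v j)) = 0) →
      (fun v => ψ v) ∈ prdSpan (P i) (D i) (univ : Finset (Fin m)))
    (c : Fin k → I) (S : Finset I) : ∀ f : Fun F N k, Good s c S f →
      f ∈ prdSpan (PX P) (DX D) (univ.filter fun j => c j ∈ S) := by
  classical
  induction S using Finset.induction_on with
  | empty =>
    intro f hf
    have h0 : (univ.filter fun j => c j ∈ (∅ : Finset I)) = (∅ : Finset (Fin k)) := by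
      ext j
      simp
    have h1 := hf.ml
    rw [h0] at h1 ⊢
    have h2 : f = f 0 • fun _ => (1 : F) := by
      funext v
      rw [h1.const v 0]
      simp
    rw [h2]
    exact Submodule.smul_mem _ _ (Submodule.subset_span Prd.one)
  | insert i S hi ih =>
    intro f hf
    obtain ⟨B, hB⟩ : ∃ B : Finset (Fin k), B = univ.filter fun j => c j = i := ⟨_, rfl⟩
    obtain ⟨A, hA⟩ : ∃ A : Finset (Fin k), A = univ.filter fun j => c j ∈ S := ⟨_, rfl⟩
    have hmB : ∀ j, j ∈ B ↔ c j = i := fun j => by rw [hB, mem_filter]; simp
    have hmA : ∀ j, j ∈ A ↔ c j ∈ S := fun j => by rw [hA, mem_filter]; simp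
    have hAB : (univ.filter fun j => c j ∈ insert i S) = A ∪ B := by
      ext j
      rw [mem_union, hmA, hmB, mem_filter, mem_insert, or_comm]
      simp
    have hdis : Disjoint A B := by
      rw [Finset.disjoint_left]
      intro j hj hj'
      rw [hmA] at hj
      rw [hmB] at hj'
      rw [hj'] at hj
      exact hi hj
    have hml := hf.ml
    rw [hAB] at hml ⊢
    have hBs : B ⊆ A ∪ B := subset_union_right
    -- the slices
    obtain ⟨e, he⟩ : ∃ e : Fin B.card ↪o Fin k, e = B.orderEmbOfFin rfl := ⟨_, rfl⟩
    have hemap : (univ : Finset (Fin B.card)).map e.toEmbedding = B := by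
      ext j
      rw [mem_map]
      constructor
      · rintro ⟨l, _, rfl⟩
        rw [he]
        exact B.orderEmbOfFin_mem rfl l
      · intro hj
        obtain ⟨l, hl⟩ := exists_ind B hj
        exact ⟨l, mem_univ _, by rw [he]; exact hl⟩
    have hsum : ∀ g : Fin k → F, ∑ j ∈ B, g j = ∑ l, g (e l) := by
      intro g
      conv_lhs => rw [← hemap]
      rw [sum_map]
      rfl
    have hfrom : ∀ v, (fun u => slice i B hml hBs v u) ∈
        prdSpan (P i) (D i) (univ : Finset (Fin B.card)) := by
      intro v
      refine hfft i B.card (slice i B hml hBs v) fun X hX u => ?_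
      have h1 := hf.kill i (mem_insert_self i S) X hX (comb i B u v)
      rw [← hB, hsum] at h1
      rw [← h1]
      refine sum_congr rfl fun l _ => ?_
      rw [slice_apply, comb_update_left]
      show f (Function.update (comb i B u v) (B.orderEmbOfFin rfl l) (Pi.single i (X *ᵥ u l))) =
        f (Function.update (comb i B u v) (e l) (Pi.single i (X *ᵥ comb i B u v (e l) i)))
      rw [he, comb_mem, Pi.single_eq_same]
    -- the space of the first fundamental theorem
    let M := MultilinearMap F (fun _ : Fin B.card => Fin (N i) → F) F
    let ev : M →ₗ[F] ((Fin B.card → Fin (N i) → F) → F) :=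
      { toFun := fun ψ u => ψ u
        map_add' := fun _ _ => rfl
        map_smul' := fun _ _ => rfl }
    let Gm : Submodule F M := (prdSpan (P i) (D i) (univ : Finset (Fin B.card))).comap ev
    have hfinM : FiniteDimensional F M := inferInstanceAs (Module.Finite F
      (MultilinearMap F (fun _ : Fin B.card => Fin (N i) → F) F))
    obtain ⟨d, b, lam, hbG, hlam⟩ := exists_coords Gm
    -- the decomposition
    have hdec : f = ∑ t, (fun v => lam t (slice i B hml hBs v)) *
        fun v => b t fun l => v (e l) i := by
      funext v
      have h1 : f v = slice i B hml hBs v fun l => v (e l) i := by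
        rw [slice_apply, hf.comp v, hf.comp (comb i B _ v)]
        congr 1
        funext j
        by_cases hj : j ∈ B
        · obtain ⟨l, hl⟩ := exists_ind B hj
          have hcj := (hmB j).1 hj
          subst hl
          rw [comb_mem, he]
          subst hcj
          rw [Pi.single_eq_same]
        · rw [comb_notMem i B _ _ hj]
      rw [h1]
      have hmem : slice i B hml hBs v ∈ Gm := hfrom v
      conv_lhs => rw [hlam (slice i B hml hBs v) hmem]
      rw [_root_.sum_apply, Finset.sum_apply]
      rfl
    rw [hdec]
    refine Submodule.sum_mem _ fun t _ => ?_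
    refine prdSpan_mul ?_ ?_ hdis
    · have ih2 : ∀ f, Good s c S f → f ∈ prdSpan (PX P) (DX D) A := by
        rw [hA]
        exact ih
      refine ih2 _ ⟨⟨?_, ?_, ?_⟩, ?_, ?_⟩
      · intro j hj v x y
        rw [← hA] at hj
        have hjB : j ∉ B := Finset.disjoint_left.1 hdis hj
        show lam t _ = lam t _ + lam t _
        rw [← map_add]
        congr 1
        refine MultilinearMap.ext fun u => ?_
        rw [_root_.add_apply, slice_apply, slice_apply, slice_apply,
          comb_update_right i B _ _ hjB, comb_update_right i B _ _ hjB,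
          comb_update_right i B _ _ hjB, hml.add j (mem_union_left _ hj)]
      · intro j hj v a x
        rw [← hA] at hj
        have hjB : j ∉ B := Finset.disjoint_left.1 hdis hj
        show lam t _ = a * lam t _
        rw [← smul_eq_mul, ← map_smul]
        congr 1
        refine MultilinearMap.ext fun u => ?_
        rw [_root_.smul_apply, slice_apply, slice_apply, comb_update_right i B _ _ hjB,
          comb_update_right i B _ _ hjB, hml.smul j (mem_union_left _ hj), smul_eq_mul]
      · intro j hj v x
        rw [← hA] at hj
        show lam t _ = lam t _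
        congr 1
        refine MultilinearMap.ext fun u => ?_
        rw [slice_apply, slice_apply]
        by_cases hjB : j ∈ B
        · rw [comb_update_mem i B _ _ hjB]
        · rw [comb_update_right i B _ _ hjB, hml.indep j (by
            rw [mem_union, not_or]
            exact ⟨hj, hjB⟩)]
      · intro v
        show lam t _ = lam t _
        congr 1
        refine MultilinearMap.ext fun u => ?_
        rw [slice_apply, slice_apply, hf.comp, hf.comp (comb i B u _)]
        congr 1
        funext j
        by_cases hj : j ∈ B
        · obtain ⟨l, hl⟩ := exists_ind B hj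
          subst hl
          rw [comb_mem, comb_mem]
        · rw [comb_notMem i B _ _ hj, comb_notMem i B _ _ hj, Pi.single_eq_same]
      · intro i' hi' X hX v
        have hne : i' ≠ i := fun h => hi (h ▸ hi')
        show ∑ j with c j = i', lam t _ = 0
        rw [← map_sum]
        have h1 : ∑ j with c j = i',
            slice i B hml hBs (Function.update v j (Pi.single i' (X *ᵥ v j i'))) = 0 := by
          refine MultilinearMap.ext fun u => ?_
          rw [_root_.sum_apply, _root_.zero_apply,
            ← hf.kill i' (mem_insert_of_mem hi') X hX (comb i B u v)]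
          refine sum_congr rfl fun j hj => ?_
          rw [mem_filter] at hj
          have hjB : j ∉ B := by
            rw [hmB, hj.2]
            exact hne
          rw [slice_apply, comb_update_right i B _ _ hjB, comb_notMem i B _ _ hjB]
        rw [h1, map_zero]
    · -- the factor which depends on the variables in `B`
      have h1 : b t ∈ Gm := hbG t
      obtain ⟨pull, hpull⟩ : ∃ pull : ((Fin B.card → Fin (N i) → F) → F) →ₗ[F] Fun F N k,
          ∀ g v, pull g v = g fun l => v (e l) i :=
        ⟨{ toFun := fun g v => g fun l => v (e l) i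
           map_add' := fun _ _ => rfl
           map_smul' := fun _ _ => rfl }, fun _ _ => rfl⟩
      have h2 : pull (ev (b t)) ∈
          (prdSpan (P i) (D i) (univ : Finset (Fin B.card))).map pull :=
        Submodule.mem_map_of_mem h1
      have h3 : (fun v => b t fun l => v (e l) i) = pull (ev (b t)) := by
        funext v
        rw [hpull]
        rfl
      rw [h3]
      unfold prdSpan at h2 ⊢
      rw [Submodule.map_span] at h2
      refine Submodule.span_mono ?_ h2
      rintro _ ⟨g, hg, rfl⟩
      have h4 := Prd.pull (P' := PX P) (D' := DX D) (fun x : ∀ i, Fin (N i) → F => x i)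
        e.toEmbedding (fun b hb => ⟨i, b, hb, rfl⟩) (fun m δ hδ => ⟨i, δ, hδ, rfl⟩) hg
      rw [hemap] at h4
      have h5 : pull g = fun v : Fin k → ∀ i, Fin (N i) → F => g fun l => v (e l) i := by
        funext v
        rw [hpull]
      show Prd (PX P) (DX D) B (pull g)
      rw [h5]
      exact h4

/-- **The first fundamental theorem for a product** -/
theorem fft_prod {s : ∀ i, Set (Matrix (Fin (N i)) (Fin (N i)) F)}
    (hfft : ∀ i m, ∀ ψ : MultilinearMap F (fun _ : Fin m => Fin (N i) → F) F,
      (∀ X ∈ s i, ∀ v : Fin m → Fin (N i) → F,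
        ∑ j, ψ (Function.update v j (X *ᵥ v j)) = 0) →
      (fun v => ψ v) ∈ prdSpan (P i) (D i) (univ : Finset (Fin m)))
    (φ : MultilinearMap F (fun _ : Fin k => ∀ i, Fin (N i) → F) F)
    (hφ : ∀ i, ∀ X ∈ s i, ∀ v, ∑ j, φ (Function.update v j (Pi.single i (X *ᵥ v j i))) = 0) :
    (fun v => φ v) ∈ prdSpan (PX P) (DX D) (univ : Finset (Fin k)) := by
  classical
  have h1 : (fun v => φ v) = ∑ c : Fin k → I, fun v => φ fun j => Pi.single (c j) (v j (c j)) := by
    funext v
    rw [Finset.sum_apply]
    have h2 : v = fun j => ∑ i, Pi.single i (v j i) := by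
      funext j
      exact (Finset.univ_sum_single (v j)).symm
    conv_lhs => rw [h2]
    rw [MultilinearMap.map_sum]
  rw [h1]
  refine Submodule.sum_mem _ fun c _ => ?_
  have hu : (univ.filter fun j : Fin k => c j ∈ (univ : Finset I)) = univ := by
    ext j
    simp
  have h2 := fft_type hfft c univ (fun v => φ fun j => Pi.single (c j) (v j (c j)))
  rw [hu] at h2
  have hup : ∀ (v : Fin k → ∀ i, Fin (N i) → F) (j : Fin k) (x : ∀ i, Fin (N i) → F),
      (fun l => (Pi.single (c l) (Function.update v j x l (c l)) : ∀ i, Fin (N i) → F)) =
        Function.update (fun l => Pi.single (c l) (v l (c l))) j (Pi.single (c j) (x (c j))) := by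
    intro v j x
    funext l
    by_cases hl : l = j
    · subst hl
      rw [Function.update_self, Function.update_self]
    · rw [Function.update_of_ne hl, Function.update_of_ne hl]
  refine h2 ⟨⟨?_, ?_, ?_⟩, ?_, ?_⟩
  · intro j _ v x y
    simp only [hup]
    rw [Pi.add_apply, Pi.single_add, MultilinearMap.map_update_add]
  · intro j _ v a x
    simp only [hup]
    rw [Pi.smul_apply, Pi.single_smul, MultilinearMap.map_update_smul, smul_eq_mul]
  · intro j hj
    exact absurd (by rw [hu]; exact mem_univ j) hj
  · intro v
    show φ _ = φ _
    congr 1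
    funext j
    simp only [Pi.single_eq_same]
  · intro i _ X hX v
    rw [← hφ i X hX fun j => Pi.single (c j) (v j (c j))]
    symm
    rw [← Finset.sum_subset (s₁ := univ.filter fun j => c j = i) (filter_subset _ _)]
    · refine sum_congr rfl fun j hj => ?_
      rw [mem_filter] at hj
      simp only [hup]
      obtain ⟨-, rfl⟩ := hj
      rw [Pi.single_eq_same, Pi.single_eq_same]
    · intro j _ hj
      have hj' : i ≠ c j := by
        intro h
        apply hj
        rw [mem_filter]
        exact ⟨mem_univ _, h.symm⟩
      rw [Pi.single_eq_of_ne hj', mulVec_zero, Pi.single_zero, MultilinearMap.map_update_zero]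

/-- change of the basic forms -/
theorem prd_span {X : Type} {P P' : Set (X → X → F)} {D D' : ∀ m : ℕ, Set ((Fin m → X) → F)}
    (hP : ∀ b ∈ P, b ∈ Submodule.span F P') (hD : ∀ m, ∀ δ ∈ D m, δ ∈ Submodule.span F (D' m))
    {A : Finset (Fin k)} {f : (Fin k → X) → F} (hf : Prd P D A f) : f ∈ prdSpan P' D' A := by
  induction hf with
  | one => exact Submodule.subset_span Prd.one
  | @pair A f b hb j j' hne hj hj' hf ih =>
    let L : (X → X → F) →ₗ[F] ((Fin k → X) → F) :=
      { toFun := fun b v => b (v j) (v j') * f v
        map_add' := fun b b' => by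
          funext v
          exact add_mul _ _ _
        map_smul' := fun c b => by
          funext v
          exact mul_assoc _ _ _ }
    have h1 : Submodule.span F P' ≤ (prdSpan P' D' (insert j (insert j' A))).comap L := by
      refine Submodule.span_le.2 fun b hb => ?_
      exact mul_prdSpan (q := fun v => b (v j) (v j'))
        (fun g hg => Prd.pair b hb j j' hne hj hj' hg) ih
    exact h1 (hP b hb)
  | @det A f m δ hδ e hA hf ih =>
    let L : ((Fin m → X) → F) →ₗ[F] ((Fin k → X) → F) :=
      { toFun := fun δ v => δ (fun l => v (e l)) * f v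
        map_add' := fun b b' => by
          funext v
          exact add_mul _ _ _
        map_smul' := fun c b => by
          funext v
          exact mul_assoc _ _ _ }
    have h1 : Submodule.span F (D' m) ≤ (prdSpan P' D' (univ.map e ∪ A)).comap L := by
      refine Submodule.span_le.2 fun δ hδ => ?_
      exact mul_prdSpan (q := fun v => δ fun l => v (e l))
        (fun g hg => Prd.det m δ hδ e hA hg) ih
    exact h1 (hD m δ hδ)

end Pool.Agent.X274.DT
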