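import Mathlib

/-!
# The roots of unity in the image of an `ℓ`-adic character
-/

set_option autoImplicit false

open Filter Topology

namespace Pool.Agent.X274.DT

variable {ℓ : ℕ} [Fact ℓ.Prime] {Γ : Type} [Group Γ] [TopologicalSpace Γ] [IsTopologicalGroup Γ]

theorem norm_one_of {x : ℚ_[ℓ]} (h : ‖x - 1‖ < 1) : ‖x‖ = 1 := by
  have h1 : ‖(x - 1) + 1‖ = max ‖x - 1‖ ‖(1 : ℚ_[ℓ])‖ :=
    IsUltrametricDist.norm_add_eq_max_of_norm_ne_norm (by rw [norm_one]; exact h.ne)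
  rwa [sub_add_cancel, norm_one, max_eq_right h.le] at h1

/-- an open subgroup on which the values of the character are no nontrivial roots of unity of order
dividing `w` -/
theorem exists_open (χ : Γ →* ℚ_[ℓ]) (hχ : Continuous χ) (U : Subgroup Γ)
    (hU : IsOpen (U : Set Γ)) {w : ℤ} (hw : w ≠ 0) :
    ∃ U' : Subgroup Γ, U' ≤ U ∧ IsOpen (U' : Set Γ) ∧ ∀ σ ∈ U', χ σ ^ w = 1 → χ σ = 1 := by
  obtain ⟨g, hg⟩ : ∃ g : ℚ_[ℓ] → ℚ_[ℓ], g = fun x => ∑ j ∈ Finset.range w.natAbs, x ^ j := ⟨_, rfl⟩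
  have hgc : Continuous g := by
    rw [hg]
    fun_prop
  have hg1 : g 1 ≠ 0 := by
    rw [hg]
    simp only [one_pow, Finset.sum_const, Finset.card_range, nsmul_eq_mul, mul_one]
    exact_mod_cast Int.natAbs_ne_zero.2 hw
  obtain ⟨ε, hε, hball⟩ := Metric.mem_nhds_iff.1
    ((isOpen_compl_singleton.preimage hgc).mem_nhds (show (1 : ℚ_[ℓ]) ∈ g ⁻¹' {0}ᶜ from hg1))
  have hne : ∀ σ, χ σ ≠ 0 := by
    intro σ h
    have h1 : χ σ * χ σ⁻¹ = 1 := by rw [← map_mul, mul_inv_cancel, map_one]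
    rw [h, zero_mul] at h1
    exact zero_ne_one h1
  have hmin : ∀ {x : ℚ_[ℓ]}, ‖x - 1‖ < min ε 1 → ‖x‖ = 1 := fun h =>
    norm_one_of (lt_of_lt_of_le h (min_le_right _ _))
  let V : Subgroup Γ :=
    { carrier := {σ | ‖χ σ - 1‖ < min ε 1}
      one_mem' := by
        show ‖χ 1 - 1‖ < min ε 1
        rw [map_one, sub_self, norm_zero]
        exact lt_min hε one_pos
      mul_mem' := by
        intro σ τ hσ hτ
        show ‖χ (σ * τ) - 1‖ < min ε 1
        have h1 : χ (σ * τ) - 1 = χ σ * (χ τ - 1) + (χ σ - 1) := by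
          rw [map_mul]
          ring
        rw [h1]
        refine lt_of_le_of_lt (IsUltrametricDist.norm_add_le_max _ _) (max_lt ?_ hσ)
        rw [norm_mul, hmin hσ, one_mul]
        exact hτ
      inv_mem' := by
        intro σ hσ
        show ‖χ σ⁻¹ - 1‖ < min ε 1
        have h1 : χ σ⁻¹ - 1 = -(χ σ⁻¹ * (χ σ - 1)) := by
          rw [mul_sub, ← map_mul, inv_mul_cancel, map_one]
          ring
        have h2 : ‖χ σ⁻¹‖ = 1 := by
          have h3 : χ σ⁻¹ * χ σ = 1 := by rw [← map_mul, inv_mul_cancel, map_one]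
          have h4 : ‖χ σ⁻¹‖ * ‖χ σ‖ = 1 := by rw [← norm_mul, h3, norm_one]
          rwa [hmin hσ, mul_one] at h4
        rw [h1, norm_neg, norm_mul, h2, one_mul]
        exact hσ }
  have hV : IsOpen (V : Set Γ) := by
    have h1 : (V : Set Γ) = χ ⁻¹' Metric.ball 1 (min ε 1) := by
      ext σ
      rw [Set.mem_preimage, Metric.mem_ball, dist_eq_norm]
      rfl
    rw [h1]
    exact Metric.isOpen_ball.preimage hχ
  refine ⟨U ⊓ V, inf_le_left, ?_, fun σ hσ h => ?_⟩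
  · rw [Subgroup.coe_inf]
    exact hU.inter hV
  · have h1 : ‖χ σ - 1‖ < min ε 1 := hσ.2
    have h2 : χ σ ^ w.natAbs = 1 := by
      rcases Int.natAbs_eq w with h3 | h3
      · rw [h3, zpow_natCast] at h
        exact h
      · rw [h3, zpow_neg, zpow_natCast, inv_eq_one] at h
        exact h
    have h3 : g (χ σ) ≠ 0 := hball (by
      rw [Metric.mem_ball, dist_eq_norm]
      exact lt_of_lt_of_le h1 (min_le_left _ _))
    have h4 : g (χ σ) * (χ σ - 1) = 0 := by
      rw [hg]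
      show (∑ j ∈ Finset.range w.natAbs, χ σ ^ j) * (χ σ - 1) = 0
      rw [geom_sum_mul, h2, sub_self]
    exact sub_eq_zero.1 ((mul_eq_zero.1 h4).resolve_left h3)

end Pool.Agent.X274.DT
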