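import Pool.Agent.X274.DT.Cas

/-!
# Alternating variables
-/

set_option autoImplicit false
set_option linter.unusedSectionVars false

open Finset Function

namespace Pool.Agent.X274.DT

variable {K : Type} [Field K] {B : Type} [Fintype B] [DecidableEq B] {S : Type} [DecidableEq S]
  {ι : Type} [DecidableEq ι] {κ : B → ι} {c : S → ι} {A : Finset S}

/-- alternating in the variables of `A'` -/
def Altn (A' : Finset S) (w : (S → B) → K) : Prop :=
  ∀ a ∈ A', ∀ b ∈ A', a ≠ b → ∀ J, sw a b w J = -w J

/-- one more variable -/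
def alt (A' : Finset S) (j : S) (w : (S → B) → K) : (S → B) → K :=
  fun J => w J - ∑ a ∈ A', sw a j w J

theorem sw_sw (a b l j : S) (w : (S → B) → K) (J : S → B) :
    sw a b (sw l j w) J = w fun x => J ((Equiv.swap a b * Equiv.swap l j) x) := rfl

theorem alt_step {A' : Finset S} {w : (S → B) → K} (hw : Altn A' w) {j : S} (hj : j ∉ A') :
    Altn (insert j A') (alt A' j w) := by
  have hsym : ∀ a ∈ A', ∀ J, sw a j (alt A' j w) J = -alt A' j w J := by
    intro a ha J
    have haj : a ≠ j := fun h => hj (h ▸ ha)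
    have h1 : sw a j (alt A' j w) J = sw a j w J - ∑ l ∈ A', sw a j (sw l j w) J := rfl
    have h2 : sw a j (sw a j w) J = w J := by
      rw [sw_sw, Equiv.swap_mul_self]
      rfl
    have h3 : ∀ l ∈ A'.erase a, sw a j (sw l j w) J = -sw l j w J := by
      intro l hl
      have hla : l ≠ a := Finset.ne_of_mem_erase hl
      have h4 : Equiv.swap a j * Equiv.swap l j = Equiv.swap l j * Equiv.swap a l := by
        rw [Equiv.mul_swap_eq_swap_mul (Equiv.swap l j) a l,
          Equiv.swap_apply_of_ne_of_ne (x := a) hla.symm haj, Equiv.swap_apply_left]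
      rw [sw_sw, h4]
      exact hw a ha l (Finset.mem_of_mem_erase hl) hla.symm fun y => J (Equiv.swap l j y)
    rw [h1, ← Finset.add_sum_erase A' _ ha, h2, Finset.sum_congr rfl h3, Finset.sum_neg_distrib]
    unfold alt
    rw [← Finset.add_sum_erase A' (fun l => sw l j w J) ha]
    ring
  have hin : ∀ a ∈ A', ∀ b ∈ A', a ≠ b → ∀ J, sw a b (alt A' j w) J = -alt A' j w J := by
    intro a ha b hb hab J
    have h1 : sw a b (alt A' j w) J = sw a b w J - ∑ l ∈ A', sw a b (sw l j w) J := rfl
    have h3 : ∀ l ∈ A', sw a b (sw l j w) J = -sw (Equiv.swap a b l) j w J := by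
      intro l hl
      have h4 : Equiv.swap a b * Equiv.swap l j =
          Equiv.swap (Equiv.swap a b l) j * Equiv.swap a b := by
        rw [Equiv.mul_swap_eq_swap_mul,
          Equiv.swap_apply_of_ne_of_ne (x := j) (fun h => hj (h ▸ ha)) (fun h => hj (h ▸ hb))]
      rw [sw_sw, h4]
      exact hw a ha b hb hab fun y => J (Equiv.swap (Equiv.swap a b l) j y)
    have h5 : ∑ l ∈ A', sw (Equiv.swap a b l) j w J = ∑ l ∈ A', sw l j w J :=
      Finset.sum_bij (fun l _ => Equiv.swap a b l) (fun l hl => (swap_mem ha hb l).2 hl)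
        (fun l _ l' _ h => (Equiv.swap a b).injective h)
        (fun l hl => ⟨Equiv.swap a b l, (swap_mem ha hb l).2 hl, Equiv.swap_apply_self _ _ _⟩)
        (fun l _ => rfl)
    rw [h1, Finset.sum_congr rfl h3, Finset.sum_neg_distrib, h5, hw a ha b hb hab]
    unfold alt
    ring
  intro a ha b hb hab J
  rw [Finset.mem_insert] at ha hb
  rcases ha with rfl | ha
  · rcases hb with rfl | hb
    · exact absurd rfl hab
    · have := hsym b hb J
      unfold sw at this ⊢
      rw [Equiv.swap_comm]
      exact this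
  · rcases hb with rfl | hb
    · exact hsym a ha J
    · exact hin a ha b hb hab J

theorem act_alt {f : (S → B) → K} (hf : Act κ c A f) {A' : Finset S} (hA' : A' ⊆ A) {j : S}
    (hj : j ∈ A) (h : ∀ a ∈ A', c a = c j) : Act κ c A (alt A' j f) := by
  refine ⟨fun l hl J u => ?_, fun J hJ l hl => ?_⟩
  · unfold alt
    rw [hf.indep l hl]
    congr 1
    exact Finset.sum_congr rfl fun a ha => (act_sw hf (hA' ha) hj (h a ha)).indep l hl J u
  · by_contra hcon
    apply hJ
    unfold alt
    have h1 : f J = 0 := by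
      by_contra h0
      exact hcon (hf.typed J h0 l hl)
    rw [h1, Finset.sum_eq_zero, sub_zero]
    intro a ha
    by_contra h0
    exact hcon ((act_sw hf (hA' ha) hj (h a ha)).typed J h0 l hl)

theorem inv_alt {Q : Matrix B B K} {star : ι → ι} {s : K} {lam : ι → K} {f : (S → B) → K}
    (hf : InvL κ Q star s lam A f) {A' : Finset S} (hA' : A' ⊆ A) {j : S} (hj : j ∈ A) :
    InvL κ Q star s lam A (alt A' j f) := by
  intro u v huv J
  have h1 := hf u v huv J
  have h2 : ∀ a ∈ A', _ := fun a ha => inv_sw hf (hA' ha) hj u v huv J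
  have h3 := Finset.sum_congr (rfl : A' = A') h2
  have h4 : ∑ l ∈ A, (Q v (J l) * alt A' j f (update J l u) -
      s * Q u (J l) * alt A' j f (update J l v)) =
      ∑ l ∈ A, (Q v (J l) * f (update J l u) - s * Q u (J l) * f (update J l v)) -
      ∑ a ∈ A', ∑ l ∈ A, (Q v (J l) * sw a j f (update J l u) -
        s * Q u (J l) * sw a j f (update J l v)) := by
    rw [Finset.sum_comm (s := A') (t := A), ← Finset.sum_sub_distrib]
    refine Finset.sum_congr rfl fun l _ => ?_
    unfold alt
    rw [Finset.sum_sub_distrib, ← Finset.mul_sum, ← Finset.mul_sum]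
    ring
  rw [h4, h1, h3, ← Finset.mul_sum]
  unfold alt
  ring

/-- too many alternating variables -/
theorem pigeon [CharZero K] {f : (S → B) → K} (hf : Act κ c A f) {A' : Finset S} (hA' : A' ⊆ A)
    {i : ι} (hi : ∀ a ∈ A', c a = i) (hcard : (blk κ i).card < A'.card) (halt : Altn A' f) :
    f = 0 := by
  funext J
  by_contra h0
  have h0' : f J ≠ 0 := h0
  have hmaps : ∀ a ∈ A', J a ∈ blk κ i := fun a ha => by
    rw [mem_blk, hf.typed J h0' a (hA' ha), hi a ha]
  obtain ⟨a, ha, b, hb, hab, he⟩ := Finset.exists_ne_map_eq_of_card_lt_of_maps_to hcard hmaps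
  have h1 := halt a ha b hb hab J
  have h2 : sw a b f J = f J := by
    unfold sw
    congr 1
    funext x
    by_cases h3 : x = a
    · rw [h3, Equiv.swap_apply_left, he]
    by_cases h4 : x = b
    · rw [h4, Equiv.swap_apply_right, he]
    rw [Equiv.swap_apply_of_ne_of_ne h3 h4]
  rw [h2] at h1
  have h3 : (2 : K) * f J = 0 := by linear_combination h1
  exact h0' ((mul_eq_zero.1 h3).resolve_left two_ne_zero)

/-- the coefficient -/
theorem coef (T : Submodule K ((S → B) → K)) {f : (S → B) → K} {A' A₁ : Finset S} (hA' : A' ⊆ A₁)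
    (hne : A'.Nonempty) (M : K)
    (h1 : ∀ a ∈ A', (fun J => M * f J + ∑ b ∈ A₁.erase a, sw a b f J) ∈ T)
    (halt : Altn A' f) (h2 : ∀ j ∈ A₁ \ A', alt A' j f ∈ T)
    (hC : (A₁.card : K) + (A'.card : K) * (M - A'.card) ≠ 0) : f ∈ T := by
  have h3 : ∀ a ∈ A', ∀ J, M * f J + ∑ b ∈ A₁.erase a, sw a b f J =
      (M - ((A'.card : K) - 1)) * f J + ∑ b ∈ A₁ \ A', sw a b f J := by
    intro a ha J
    have hsplit : A₁.erase a = A'.erase a ∪ (A₁ \ A') := by
      ext x
      simp only [Finset.mem_erase, Finset.mem_union, Finset.mem_sdiff]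
      constructor
      · rintro ⟨h1, h2⟩
        by_cases hx : x ∈ A'
        · exact Or.inl ⟨h1, hx⟩
        · exact Or.inr ⟨h2, hx⟩
      · rintro (⟨h1, h2⟩ | ⟨h1, h2⟩)
        · exact ⟨h1, hA' h2⟩
        · exact ⟨fun h => h2 (h ▸ ha), h1⟩
    have hdis : Disjoint (A'.erase a) (A₁ \ A') := by
      rw [Finset.disjoint_left]
      intro x hx hx'
      rw [Finset.mem_erase] at hx
      rw [Finset.mem_sdiff] at hx'
      exact hx'.2 hx.2
    have h4 : ∀ b ∈ A'.erase a, sw a b f J = -f J := fun b hb =>
      halt a ha b (Finset.mem_of_mem_erase hb) (Finset.ne_of_mem_erase hb).symm J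
    have hpos : 1 ≤ A'.card := Finset.card_pos.2 hne
    rw [hsplit, Finset.sum_union hdis, Finset.sum_congr rfl h4, Finset.sum_const,
      Finset.card_erase_of_mem ha, nsmul_eq_mul, Nat.cast_sub hpos]
    push_cast
    ring
  have h5 : (fun J => ((A₁.card : K) + (A'.card : K) * (M - A'.card)) * f J) ∈ T := by
    have h6 := T.add_mem (T.sum_mem h1) (T.sum_mem h2)
    convert h6 using 1
    funext J
    rw [Pi.add_apply, Finset.sum_apply, Finset.sum_apply, Finset.sum_congr rfl fun a ha => h3 a ha J,
      Finset.sum_add_distrib, Finset.sum_const, nsmul_eq_mul, Finset.sum_comm]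
    unfold alt
    rw [Finset.sum_sub_distrib, Finset.sum_const, nsmul_eq_mul]
    have hcc : ((A₁ \ A').card : K) = (A₁.card : K) - A'.card := by
      have := Finset.card_sdiff_add_card_eq_card hA'
      rw [← this]
      push_cast
      ring
    rw [hcc]
    ring
  have h6 := T.smul_mem ((A₁.card : K) + (A'.card : K) * (M - A'.card))⁻¹ h5
  convert h6 using 1
  funext J
  rw [Pi.smul_apply, smul_eq_mul, inv_mul_cancel_left₀ hC]

section det

variable {d : ℕ} (e : Fin d ↪ S)

open Classical in
/-- the variables `e m` are replaced -/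
noncomputable def ins (x : Fin d → B) (J : S → B) : S → B :=
  fun y => if h : ∃ m, e m = y then x h.choose else J y

theorem ins_e (x : Fin d → B) (J : S → B) (m : Fin d) : ins e x J (e m) = x m := by
  unfold ins
  have h : ∃ m', e m' = e m := ⟨m, rfl⟩
  rw [dif_pos h]
  congr 1
  exact e.injective h.choose_spec

theorem ins_ne (x : Fin d → B) (J : S → B) {y : S} (h : ∀ m, e m ≠ y) : ins e x J y = J y := by
  unfold ins
  rw [dif_neg]
  rintro ⟨m, hm⟩
  exact h m hm

theorem ins_ext {x : Fin d → B} {J J' : S → B} (h1 : ∀ m, J' (e m) = x m)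
    (h2 : ∀ y, (∀ m, e m ≠ y) → J' y = J y) : ins e x J = J' := by
  funext y
  by_cases h : ∃ m, e m = y
  · obtain ⟨m, rfl⟩ := h
    rw [ins_e, h1]
  · push Not at h
    rw [ins_ne e x J h, h2 y h]

theorem ins_swap (x : Fin d → B) (J : S → B) (a b : Fin d) :
    (fun y => ins e x J (Equiv.swap (e a) (e b) y)) = ins e (fun m => x (Equiv.swap a b m)) J := by
  symm
  refine ins_ext e (fun m => ?_) (fun y hy => ?_)
  · have h : Equiv.swap (e a) (e b) (e m) = e (Equiv.swap a b m) :=
      e.injective.swap_apply a b m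
    rw [h, ins_e]
  · rw [Equiv.swap_apply_of_ne_of_ne (hy a).symm (hy b).symm, ins_ne e x J hy]

theorem ins_perm {w : (S → B) → K} (hw : Altn (univ.map e) w) (J : S → B)
    (σ : Equiv.Perm (Fin d)) : ∀ x : Fin d → B,
      w (ins e (fun m => x (σ m)) J) = ((Equiv.Perm.sign σ : ℤ) : K) * w (ins e x J) := by
  induction σ using Equiv.Perm.swap_induction_on with
  | one =>
    intro x
    simp
  | swap_mul f a b hab ih =>
    intro x
    have h1 : (fun m => x ((Equiv.swap a b * f) m)) =
        fun m => (fun m' => x (Equiv.swap a b m')) (f m) := rfl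
    rw [h1, ih (fun m' => x (Equiv.swap a b m')), ← ins_swap]
    have h2 := hw (e a) (Finset.mem_map_of_mem e (mem_univ a)) (e b)
      (Finset.mem_map_of_mem e (mem_univ b)) (fun h => hab (e.injective h)) (ins e x J)
    unfold sw at h2
    rw [h2, Equiv.Perm.sign_mul, Equiv.Perm.sign_swap hab]
    push_cast
    ring

/-- the determinant in coordinates -/
def dt (t : Fin d ↪ B) (J : S → B) : K :=
  ∑ σ : Equiv.Perm (Fin d), ((Equiv.Perm.sign σ : ℤ) : K) *
    if ∀ m, J (e m) = t (σ m) then 1 else 0

theorem dt_of {t : Fin d ↪ B} {J : S → B} {σ : Equiv.Perm (Fin d)}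
    (h : ∀ m, J (e m) = t (σ m)) : (dt e t J : K) = ((Equiv.Perm.sign σ : ℤ) : K) := by
  unfold dt
  rw [Finset.sum_eq_single σ, if_pos h, mul_one]
  · intro τ _ hτ
    rw [if_neg, mul_zero]
    intro h2
    apply hτ
    ext m
    congr 1
    apply t.injective
    rw [← h2, h]
  · intro h
    exact absurd (mem_univ σ) h

theorem dt_of_not {t : Fin d ↪ B} {J : S → B}
    (h : ∀ σ : Equiv.Perm (Fin d), ¬ ∀ m, J (e m) = t (σ m)) : (dt e t J : K) = 0 := by
  unfold dt
  refine Finset.sum_eq_zero fun σ _ => ?_
  rw [if_neg (h σ), mul_zero]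

variable [CharZero K] {t : Fin d ↪ B} {i : ι} (ht : univ.map t = blk κ i)
  {w : (S → B) → K} (hw : Act κ c A w) (heA : ∀ m, e m ∈ A) (he : ∀ m, c (e m) = i)
  (halt : Altn (univ.map e) w)

include ht hw heA he halt

theorem zero_of_eq {J : S → B} {a b : Fin d} (hab : a ≠ b) (h : J (e a) = J (e b)) : w J = 0 := by
  have h1 := halt (e a) (Finset.mem_map_of_mem e (mem_univ a)) (e b)
      (Finset.mem_map_of_mem e (mem_univ b)) (fun h => hab (e.injective h)) J
  have h2 : sw (e a) (e b) w J = w J := by
    unfold sw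
    congr 1
    funext x
    by_cases h3 : x = e a
    · rw [h3, Equiv.swap_apply_left, h]
    by_cases h4 : x = e b
    · rw [h4, Equiv.swap_apply_right, h]
    rw [Equiv.swap_apply_of_ne_of_ne h3 h4]
  rw [h2] at h1
  have h3 : (2 : K) * w J = 0 := by linear_combination h1
  exact (mul_eq_zero.1 h3).resolve_left two_ne_zero

theorem det_mul (J : S → B) : w J = dt e t J * w (ins e t J) := by
  by_cases h : ∃ σ : Equiv.Perm (Fin d), ∀ m, J (e m) = t (σ m)
  · obtain ⟨σ, hσ⟩ := h
    rw [dt_of e hσ, ← ins_perm e halt J σ t]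
    congr 1
    symm
    exact ins_ext e (fun m => hσ m) fun _ _ => rfl
  · push Not at h
    rw [dt_of_not e fun σ hσ => by
      obtain ⟨m, hm⟩ := h σ
      exact hm (hσ m), zero_mul]
    by_contra h0
    have h1 : ∀ m, ∃ m', t m' = J (e m) := by
      intro m
      have h2 : J (e m) ∈ blk κ i := by
        rw [mem_blk, hw.typed J h0 (e m) (heA m), he]
      rw [← ht, Finset.mem_map] at h2
      obtain ⟨m', -, hm'⟩ := h2
      exact ⟨m', hm'⟩
    choose σ hσ using h1
    have hinj : Function.Injective σ := by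
      intro a b hab
      by_contra hne
      refine h0 (zero_of_eq e ht hw heA he halt hne ?_)
      rw [← hσ a, ← hσ b, hab]
    obtain ⟨m, hm⟩ := h (Equiv.ofBijective σ (Finite.injective_iff_bijective.1 hinj))
    exact hm (hσ m).symm

theorem act_ins (A' : Finset S) (hA' : A' = univ.map e) :
    Act κ c (A \ A') fun J => w (ins e t J) := by
  refine ⟨fun j hj J u => ?_, fun J hJ j hj => ?_⟩
  · by_cases h : ∃ m, e m = j
    · obtain ⟨m, rfl⟩ := h
      show w _ = w _
      congr 1
      refine ins_ext e (fun m' => by rw [ins_e]) fun y hy => ?_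
      rw [ins_ne e _ _ hy, update_of_ne (hy m).symm]
    · push Not at h
      have h1 : ins e t (update J j u) = update (ins e t J) j u := by
        refine ins_ext e (fun m => ?_) fun y hy => ?_
        · rw [update_of_ne (h m), ins_e]
        · by_cases hyj : y = j
          · subst hyj
            rw [update_self, update_self]
          · rw [update_of_ne hyj, update_of_ne hyj, ins_ne e _ _ hy]
      show w _ = w _
      rw [h1]
      refine hw.indep j ?_ _ _
      intro hjA
      apply hj
      rw [Finset.mem_sdiff, hA', Finset.mem_map]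
      refine ⟨hjA, ?_⟩
      rintro ⟨m, -, hm⟩
      exact h m hm
  · rw [Finset.mem_sdiff, hA', Finset.mem_map] at hj
    have h1 := hw.typed _ hJ j hj.1
    rwa [ins_ne e _ _ fun m hm => hj.2 ⟨m, mem_univ _, hm⟩] at h1

theorem inv_ins {Q : Matrix B B K} {star : ι → ι} {s : K} {lam : ι → K}
    (hQs : ∀ a b, Q a b = s * Q b a) (hI : InvL κ Q star s lam A w) (A' : Finset S) (hA' : A' = univ.map e) :
    InvL κ Q star s (fun j => lam j - (if j = i then 1 else 0) + if star j = i then 1 else 0)
      (A \ A') fun J => w (ins e t J) := by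
  intro u v huv J
  have hsub : A' ⊆ A := by
    intro x hx
    rw [hA', Finset.mem_map] at hx
    obtain ⟨m, -, rfl⟩ := hx
    exact heA m
  have h1 := hI u v huv (ins e t J)
  rw [← Finset.sum_sdiff hsub] at h1
  have hup : ∀ j ∈ A \ A', ∀ x, update (ins e t J) j x = ins e t (update J j x) := by
    intro j hj x
    rw [Finset.mem_sdiff, hA', Finset.mem_map] at hj
    symm
    refine ins_ext e (fun m => ?_) fun y hy => ?_
    · rw [update_of_ne (fun h => hj.2 ⟨m, mem_univ _, h⟩), ins_e]
    · by_cases hyj : y = j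
      · subst hyj
        rw [update_self, update_self]
      · rw [update_of_ne hyj, update_of_ne hyj, ins_ne e _ _ hy]
  have h2 : ∑ j ∈ A \ A', (Q v (ins e t J j) * w (update (ins e t J) j u) -
      s * Q u (ins e t J j) * w (update (ins e t J) j v)) =
      ∑ j ∈ A \ A', (Q v (J j) * w (ins e t (update J j u)) -
      s * Q u (J j) * w (ins e t (update J j v))) := by
    refine Finset.sum_congr rfl fun j hj => ?_
    rw [hup j hj, hup j hj, ins_ne e _ _ fun m hm => ?_]
    rw [Finset.mem_sdiff, hA', Finset.mem_map] at hj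
    exact hj.2 ⟨m, mem_univ _, hm⟩
  -- one term
  have h3 : ∀ (q : B → K) (x : B), ∑ m : Fin d, q (t m) * w (update (ins e t J) (e m) x) =
      if κ x = i then q x * w (ins e t J) else 0 := by
    intro q x
    by_cases hx : κ x = i
    · rw [if_pos hx]
      have h4 : x ∈ univ.map t := by rw [ht, mem_blk]; exact hx
      rw [Finset.mem_map] at h4
      obtain ⟨m0, -, rfl⟩ := h4
      rw [Finset.sum_eq_single m0]
      · have h5 : update (ins e t J) (e m0) (t m0) = ins e t J := by
          rw [← ins_e e t J m0, update_eq_self]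
        rw [h5]
      · intro m _ hm
        rw [zero_of_eq e ht hw heA he halt hm (by
          rw [update_self, update_of_ne (fun h => hm (e.injective h).symm), ins_e]), mul_zero]
      · intro h
        exact absurd (mem_univ m0) h
    · rw [if_neg hx]
      refine Finset.sum_eq_zero fun m _ => ?_
      have h4 : w (update (ins e t J) (e m) x) = 0 := by
        by_contra h0
        have h5 := hw.typed _ h0 (e m) (heA m)
        rw [update_self, he] at h5
        exact hx h5
      rw [h4, mul_zero]
  have h4 : ∑ j ∈ A', (Q v (ins e t J j) * w (update (ins e t J) j u) -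
      s * Q u (ins e t J j) * w (update (ins e t J) j v)) =
      (if κ u = i then Q v u * w (ins e t J) else 0) -
        s * (if κ v = i then Q u v * w (ins e t J) else 0) := by
    rw [hA', Finset.sum_map, Finset.sum_sub_distrib, ← h3 (fun b => Q v b) u,
      ← h3 (fun b => Q u b) v, Finset.mul_sum]
    congr 1
    · exact Finset.sum_congr rfl fun m _ => by rw [ins_e]
    · exact Finset.sum_congr rfl fun m _ => by rw [ins_e]; ring
  rw [h2, h4] at h1
  show _ = (lam (κ u) - (if κ u = i then 1 else 0) + if star (κ u) = i then 1 else 0) * Q v u *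
    w (ins e t J)
  rw [← huv]
  have h5 := hQs v u
  split_ifs at h1 ⊢ <;> first
    | linear_combination h1
    | linear_combination h1 - w (ins e t J) * h5
end det

end Pool.Agent.X274.DT
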