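import Mathlib

/-!
# The Casimir identity in the presence of the center

Forms in the variables of a finite set `A`, for products of special linear, orthogonal and symplectic
Lie algebras. Adaptation of the file `Pool/Agent/Y130/Fft.lean`.
-/

set_option autoImplicit false
set_option linter.unusedSectionVars false

open Finset Function

namespace Pool.Agent.X274.DT

variable {K : Type} [Field K] {B : Type} [Fintype B] [DecidableEq B] {S : Type} [DecidableEq S]
  {ι : Type} [DecidableEq ι]

/-- the elements of a block -/
def blk (κ : B → ι) (i : ι) : Finset B := univ.filter fun b => κ b = i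

theorem mem_blk {κ : B → ι} {i : ι} {b : B} : b ∈ blk κ i ↔ κ b = i := by
  unfold blk
  rw [mem_filter]
  simp

/-- a function which depends on the variables in `A`, of the types `c` -/
structure Act (κ : B → ι) (c : S → ι) (A : Finset S) (f : (S → B) → K) : Prop where
  indep : ∀ j ∉ A, ∀ J u, f (update J j u) = f J
  typed : ∀ J, f J ≠ 0 → ∀ j ∈ A, κ (J j) = c j

/-- invariance -/
def InvL (κ : B → ι) (Q : Matrix B B K) (star : ι → ι) (s : K) (lam : ι → K) (A : Finset S)
    (f : (S → B) → K) : Prop :=
  ∀ u v, κ v = star (κ u) → ∀ J : S → B,
    ∑ j ∈ A, (Q v (J j) * f (update J j u) - s * Q u (J j) * f (update J j v)) =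
      lam (κ u) * Q v u * f J

/-- contraction of two variables -/
def con (κ : B → ι) (R : Matrix B B K) (i : ι) (a b : S) (f : (S → B) → K) : (S → B) → K :=
  fun J => ∑ p ∈ blk κ i, ∑ q, R p q * f (update (update J a p) b q)

/-- exchange of two variables -/
def sw (a b : S) (f : (S → B) → K) : (S → B) → K := fun J => f fun j => J (Equiv.swap a b j)

variable {κ : B → ι} {Q R : Matrix B B K} {star : ι → ι} {s : K} (hs : s * s = 1)
  (hstar : ∀ i, star (star i) = i)
  (hQb : ∀ a b, κ b ≠ star (κ a) → Q a b = 0) (hRb : ∀ a b, κ b ≠ star (κ a) → R a b = 0)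
  (hQs : ∀ a b, Q a b = s * Q b a)
  (hQR : Q * R = 1)

include hQR in
theorem sum_QR (v u : B) : ∑ p, Q v p * R p u = if v = u then 1 else 0 := by
  have h := congrFun (congrFun hQR v) u
  rwa [Matrix.mul_apply, Matrix.one_apply] at h

include hQR in
theorem sum_RQ (p m : B) : ∑ u, R p u * Q u m = if p = m then 1 else 0 := by
  have hRQ : R * Q = 1 := mul_eq_one_comm.1 hQR
  have h := congrFun (congrFun hRQ p) m
  rwa [Matrix.mul_apply, Matrix.one_apply] at h

include hstar hQb hQR in
/-- sums over one block -/
theorem sum_QR_blk (i : ι) (v u : B) :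
    ∑ p ∈ blk κ i, Q v p * R p u = if κ v = star i ∧ v = u then 1 else 0 := by
  by_cases hv : κ v = star i
  · rw [← sum_QR hQR v u |>.trans (by simp [hv] : (if v = u then (1 : K) else 0) =
      if κ v = star i ∧ v = u then 1 else 0)]
    apply Finset.sum_subset (Finset.subset_univ _)
    intro x _ hx
    rw [mem_blk] at hx
    rw [hQb v x (by rw [hv, hstar]; exact hx), zero_mul]
  · rw [if_neg fun h => hv h.1]
    refine Finset.sum_eq_zero fun p hp => ?_
    rw [mem_blk] at hp
    rw [hQb v p (by
      rw [hp]
      intro h
      apply hv
      rw [h, hstar]), zero_mul]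

section

variable {c : S → ι} {lam : ι → K} {A : Finset S}

include hs hstar hQb hRb hQs hQR in
/-- the Casimir identity -/
theorem cas {f : (S → B) → K} (hf : InvL κ Q star s lam A f) {J : S → B}
    (hJ : ∀ j ∈ A, κ (J j) = c j) {i : ι} {a : S} (haA : a ∈ A) (ha : c a = i) :
    (((blk κ i).card : K) - (if star i = i then s else 0) + lam (star i)) * f J +
      ∑ b ∈ (A.filter fun j => c j = i).erase a, sw a b f J =
    s * ∑ b ∈ (A.filter fun j => c j = star i).erase a, Q (J a) (J b) * con κ R i a b f J := by
  have hJa : κ (J a) = i := by rw [hJ a haA, ha]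
  -- the contribution of each variable
  let G : S → K := fun j => ∑ p ∈ blk κ i, ∑ u, R p u *
    (Q (J a) (update J a p j) * f (update (update J a p) j u) -
      s * Q u (update J a p j) * f (update (update J a p) j (J a)))
  have hG : ∑ j ∈ A, G j = lam (star i) * s * f J := by
    show ∑ j ∈ A, ∑ p ∈ blk κ i, ∑ u, _ = _
    rw [Finset.sum_comm]
    have h0 : ∀ p ∈ blk κ i, ∑ j ∈ A, ∑ u, R p u *
        (Q (J a) (update J a p j) * f (update (update J a p) j u) -
          s * Q u (update J a p j) * f (update (update J a p) j (J a))) =
        if p = J a then lam (star i) * s * f (update J a p) else 0 := by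
      intro p hp
      rw [mem_blk] at hp
      rw [Finset.sum_comm]
      have h1 : ∀ u ∈ (univ : Finset B), ∑ j ∈ A, R p u *
          (Q (J a) (update J a p j) * f (update (update J a p) j u) -
            s * Q u (update J a p j) * f (update (update J a p) j (J a))) =
          lam (star i) * s * f (update J a p) * (R p u * Q u (J a)) := by
        intro u _
        rw [← Finset.mul_sum]
        by_cases hu : κ u = star i
        · have := hf u (J a) (by rw [hu, hstar, hJa]) (update J a p)
          rw [this, hu, hQs (J a) u]
          ring
        · rw [hRb p u (by rw [hp]; exact hu), zero_mul, zero_mul, mul_zero]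
      rw [Finset.sum_congr rfl h1, ← Finset.mul_sum, sum_RQ hQR]
      split_ifs
      · rw [mul_one]
      · rw [mul_zero]
    rw [Finset.sum_congr rfl h0, Finset.sum_ite_eq', if_pos (mem_blk.2 hJa), update_eq_self]
  have hGa : G a = (if star i = i then f J else 0) - s * ((blk κ i).card : K) * f J := by
    show ∑ p ∈ blk κ i, ∑ u, _ = _
    simp only [update_self, update_idem, update_eq_self, mul_sub, Finset.sum_sub_distrib]
    congr 1
    · rw [Finset.sum_comm]
      have h1 : ∀ u ∈ (univ : Finset B), ∑ p ∈ blk κ i, R p u * (Q (J a) p * f (update J a u)) =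
          (if κ (J a) = star i ∧ J a = u then (1 : K) else 0) * f (update J a u) := by
        intro u _
        rw [← sum_QR_blk hstar hQb hQR, Finset.sum_mul]
        exact Finset.sum_congr rfl fun p _ => by ring
      rw [Finset.sum_congr rfl h1]
      by_cases hi : star i = i
      · have h2 : κ (J a) = star i := by rw [hJa, hi]
        simp only [h2, true_and, ite_mul, one_mul, zero_mul]
        rw [Finset.sum_ite_eq, if_pos (Finset.mem_univ _), update_eq_self, if_pos hi]
      · have h2 : ¬ κ (J a) = star i := by rw [hJa]; exact Ne.symm hi
        simp only [h2, false_and, if_false, zero_mul]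
        rw [Finset.sum_const_zero, if_neg hi]
    · have h1 : ∀ p ∈ blk κ i, ∑ u, R p u * (s * Q u p * f J) = s * f J := by
        intro p _
        have := sum_RQ hQR p p
        rw [if_pos rfl] at this
        calc ∑ u, R p u * (s * Q u p * f J) = s * f J * ∑ u, R p u * Q u p := by
              rw [Finset.mul_sum]
              exact Finset.sum_congr rfl fun u _ => by ring
          _ = s * f J := by rw [this, mul_one]
      rw [Finset.sum_congr rfl h1, Finset.sum_const, nsmul_eq_mul]
      ring
  have hG1 : ∀ j ∈ A, j ≠ a → G j =
      (if c j = star i then Q (J a) (J j) * con κ R i a j f J else 0) -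
      (if c j = i then s * sw a j f J else 0) := by
    intro j hjA hja
    show ∑ p ∈ blk κ i, ∑ u, _ = _
    simp only [update_of_ne hja, mul_sub, Finset.sum_sub_distrib]
    congr 1
    · by_cases hj : c j = star i
      · rw [if_pos hj]
        unfold con
        rw [Finset.mul_sum]
        refine Finset.sum_congr rfl fun p _ => ?_
        rw [Finset.mul_sum]
        refine Finset.sum_congr rfl fun u _ => ?_
        ring
      · rw [if_neg hj]
        refine Finset.sum_eq_zero fun p _ => Finset.sum_eq_zero fun u _ => ?_
        rw [hQb (J a) (J j) (by rw [hJa, hJ j hjA]; exact hj), zero_mul, mul_zero]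
    · have h1 : ∀ p ∈ blk κ i, ∑ u, R p u * (s * Q u (J j) *
          f (update (update J a p) j (J a))) =
          (if p = J j then s * f (update (update J a p) j (J a)) else 0) := by
        intro p _
        have := sum_RQ hQR p (J j)
        calc ∑ u, R p u * (s * Q u (J j) * f (update (update J a p) j (J a))) =
              s * f (update (update J a p) j (J a)) * ∑ u, R p u * Q u (J j) := by
              rw [Finset.mul_sum]
              exact Finset.sum_congr rfl fun u _ => by ring
          _ = _ := by rw [this]; split_ifs <;> simp
      rw [Finset.sum_congr rfl h1, Finset.sum_ite_eq']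
      by_cases hj : c j = i
      · rw [if_pos (mem_blk.2 (by rw [hJ j hjA, hj])), if_pos hj]
        unfold sw
        congr 2
        funext x
        by_cases h1 : x = j
        · subst h1
          rw [update_self, Equiv.swap_apply_right]
        rw [update_of_ne h1]
        by_cases h2 : x = a
        · subst h2
          rw [update_self, Equiv.swap_apply_left]
        rw [update_of_ne h2, Equiv.swap_apply_of_ne_of_ne h2 h1]
      · rw [if_neg (fun h => hj (by rw [← hJ j hjA]; exact mem_blk.1 h)), if_neg hj]
  have hsum : ∑ j ∈ A, G j = G a + ∑ j ∈ A.erase a, G j :=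
    (Finset.add_sum_erase A G haA).symm
  have hfil : ∀ (i' : ι) (F : S → K), ∑ j ∈ A.erase a, (if c j = i' then F j else 0) =
      ∑ j ∈ (A.filter fun j => c j = i').erase a, F j := by
    intro i' F
    rw [← Finset.sum_filter]
    refine Finset.sum_congr ?_ fun _ _ => rfl
    ext x
    simp only [Finset.mem_filter, Finset.mem_erase]
    tauto
  rw [hG, hGa, Finset.sum_congr rfl fun j hj => hG1 j (Finset.mem_of_mem_erase hj)
    (Finset.ne_of_mem_erase hj), Finset.sum_sub_distrib, hfil, hfil, ← Finset.mul_sum] at hsum
  by_cases hi : star i = i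
  · rw [if_pos hi] at hsum ⊢
    linear_combination s * hsum - (lam (star i) * f J + ((blk κ i).card : K) * f J +
      ∑ b ∈ (A.filter fun j => c j = i).erase a, sw a b f J) * hs
  · rw [if_neg hi] at hsum ⊢
    linear_combination s * hsum - (lam (star i) * f J + ((blk κ i).card : K) * f J +
      ∑ b ∈ (A.filter fun j => c j = i).erase a, sw a b f J) * hs

include hs hstar hQb hQs hQR in
/-- contractions of invariant forms are invariant -/
theorem inv_con {f : (S → B) → K} (hf : InvL κ Q star s lam A f) {i : ι} {a b : S}
    (hab : a ≠ b) (ha : a ∈ A) (hb : b ∈ A) :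
    InvL κ Q star s lam ((A.erase a).erase b) (con κ R i a b f) := by
  intro u v huv J
  have hba : b ∈ A.erase a := Finset.mem_erase.2 ⟨Ne.symm hab, hb⟩
  have key : ∀ p q, ∑ x ∈ (A.erase a).erase b,
      (Q v (J x) * f (update (update (update J x u) a p) b q) -
      s * Q u (J x) * f (update (update (update J x v) a p) b q)) =
      lam (κ u) * Q v u * f (update (update J a p) b q) -
      (Q v p * f (update (update J a u) b q) - s * Q u p * f (update (update J a v) b q)) -
      (Q v q * f (update (update J a p) b u) - s * Q u q * f (update (update J a p) b v)) := by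
    intro p q
    have h1 := hf u v huv (update (update J a p) b q)
    rw [← Finset.add_sum_erase A _ ha, ← Finset.add_sum_erase (A.erase a) _ hba] at h1
    have h2 : ∀ x ∈ (A.erase a).erase b, (Q v (update (update J a p) b q x) *
        f (update (update (update J a p) b q) x u) -
        s * Q u (update (update J a p) b q x) * f (update (update (update J a p) b q) x v)) =
        (Q v (J x) * f (update (update (update J x u) a p) b q) -
      s * Q u (J x) * f (update (update (update J x v) a p) b q)) := by
      intro x hx
      have hxb : x ≠ b := Finset.ne_of_mem_erase hx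
      have hxa : x ≠ a := Finset.ne_of_mem_erase (Finset.mem_of_mem_erase hx)
      rw [update_of_ne hxb, update_of_ne hxa]
      have h3 : ∀ w, update (update (update J a p) b q) x w =
          update (update (update J x w) a p) b q := by
        intro w
        rw [update_comm hxb.symm, update_comm hxa.symm]
      rw [h3, h3]
    rw [Finset.sum_congr rfl h2] at h1
    have h4 : ∀ w, update (update (update J a p) b q) a w = update (update J a w) b q := by
      intro w
      rw [update_comm hab.symm, update_idem]
    rw [update_of_ne hab, update_self, update_self, h4, h4, update_idem, update_idem] at h1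
    linear_combination h1
  have hlhs : ∑ j ∈ (A.erase a).erase b, (Q v (J j) * con κ R i a b f (update J j u) -
      s * Q u (J j) * con κ R i a b f (update J j v)) =
      ∑ p ∈ blk κ i, ∑ q, R p q *
        (lam (κ u) * Q v u * f (update (update J a p) b q) -
      (Q v p * f (update (update J a u) b q) - s * Q u p * f (update (update J a v) b q)) -
      (Q v q * f (update (update J a p) b u) - s * Q u q * f (update (update J a p) b v))) := by
    simp only [← key]
    unfold con
    simp only [Finset.mul_sum, mul_sub]
    simp only [← Finset.sum_sub_distrib]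
    rw [Finset.sum_comm]
    refine Finset.sum_congr rfl fun p _ => ?_
    rw [Finset.sum_comm]
    refine Finset.sum_congr rfl fun q _ => ?_
    refine Finset.sum_congr rfl fun j _ => ?_
    ring
  rw [hlhs]
  have e1 : ∑ p ∈ blk κ i, ∑ q, R p q * (Q v p * f (update (update J a u) b q)) =
      if κ v = star i then f (update (update J a u) b v) else 0 := by
    rw [Finset.sum_comm]
    have h1 : ∀ q ∈ (univ : Finset B), ∑ p ∈ blk κ i,
        R p q * (Q v p * f (update (update J a u) b q)) =
        (if κ v = star i ∧ v = q then (1 : K) else 0) * f (update (update J a u) b q) := by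
      intro q _
      rw [← sum_QR_blk hstar hQb hQR, Finset.sum_mul]
      exact Finset.sum_congr rfl fun p _ => by ring
    rw [Finset.sum_congr rfl h1]
    by_cases hv : κ v = star i
    · simp only [hv, true_and, ite_mul, one_mul, zero_mul, if_true]
      rw [Finset.sum_ite_eq, if_pos (Finset.mem_univ _)]
    · simp only [hv, false_and, if_false, zero_mul, Finset.sum_const_zero]
  have e2 : ∑ p ∈ blk κ i, ∑ q, R p q * (s * Q u p * f (update (update J a v) b q)) =
      if κ u = star i then s * f (update (update J a v) b u) else 0 := by
    rw [Finset.sum_comm]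
    have h1 : ∀ q ∈ (univ : Finset B), ∑ p ∈ blk κ i, R p q * (s * Q u p *
        f (update (update J a v) b q)) =
        (if κ u = star i ∧ u = q then (1 : K) else 0) * (s * f (update (update J a v) b q)) := by
      intro q _
      rw [← sum_QR_blk hstar hQb hQR, Finset.sum_mul]
      exact Finset.sum_congr rfl fun p _ => by ring
    rw [Finset.sum_congr rfl h1]
    by_cases hu : κ u = star i
    · simp only [hu, true_and, ite_mul, one_mul, zero_mul, if_true]
      rw [Finset.sum_ite_eq, if_pos (Finset.mem_univ _)]
    · simp only [hu, false_and, if_false, zero_mul, Finset.sum_const_zero]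
  have e3 : ∑ p ∈ blk κ i, ∑ q, R p q * (Q v q * f (update (update J a p) b u)) =
      if κ v = i then s * f (update (update J a v) b u) else 0 := by
    have h1 : ∀ p ∈ blk κ i, ∑ q, R p q * (Q v q * f (update (update J a p) b u)) =
        (if p = v then s * f (update (update J a p) b u) else 0) := by
      intro p _
      calc ∑ q, R p q * (Q v q * f (update (update J a p) b u)) =
            s * f (update (update J a p) b u) * ∑ q, R p q * Q q v := by
            rw [Finset.mul_sum]
            exact Finset.sum_congr rfl fun q _ => by rw [hQs v q]; ring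
        _ = _ := by rw [sum_RQ hQR]; split_ifs <;> simp
    rw [Finset.sum_congr rfl h1, Finset.sum_ite_eq']
    by_cases hv : κ v = i
    · rw [if_pos (mem_blk.2 hv), if_pos hv]
    · rw [if_neg (fun h => hv (mem_blk.1 h)), if_neg hv]
  have e4 : ∑ p ∈ blk κ i, ∑ q, R p q * (s * Q u q * f (update (update J a p) b v)) =
      if κ u = i then f (update (update J a u) b v) else 0 := by
    have h1 : ∀ p ∈ blk κ i, ∑ q, R p q * (s * Q u q * f (update (update J a p) b v)) =
        (if p = u then f (update (update J a p) b v) else 0) := by
      intro p _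
      calc ∑ q, R p q * (s * Q u q * f (update (update J a p) b v)) =
            f (update (update J a p) b v) * ∑ q, R p q * Q q u := by
            rw [Finset.mul_sum]
            refine Finset.sum_congr rfl fun q _ => ?_
            rw [hQs u q]
            linear_combination (R p q * Q q u * f (update (update J a p) b v)) * hs
        _ = _ := by rw [sum_RQ hQR]; split_ifs <;> simp
    rw [Finset.sum_congr rfl h1, Finset.sum_ite_eq']
    by_cases hu : κ u = i
    · rw [if_pos (mem_blk.2 hu), if_pos hu]
    · rw [if_neg (fun h => hu (mem_blk.1 h)), if_neg hu]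
  simp only [mul_sub, Finset.sum_sub_distrib, e1, e2, e3, e4]
  have h1 : κ v = star i ↔ κ u = i := by
    rw [huv]
    exact ⟨fun h => by rw [← hstar (κ u), h, hstar], fun h => by rw [h]⟩
  have h2 : κ u = star i ↔ κ v = i := by
    rw [huv]
    exact ⟨fun h => by rw [h, hstar], fun h => by rw [← h, hstar]⟩
  simp only [h1, h2]
  have h3 : lam (κ u) * Q v u * con κ R i a b f J =
      ∑ p ∈ blk κ i, ∑ q, R p q * (lam (κ u) * Q v u * f (update (update J a p) b q)) := by
    unfold con
    rw [Finset.mul_sum]
    refine Finset.sum_congr rfl fun p _ => ?_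
    rw [Finset.mul_sum]
    exact Finset.sum_congr rfl fun q _ => by ring
  rw [h3]
  ring

/-- contractions depend on the other variables -/
theorem act_con {f : (S → B) → K} (hf : Act κ c A f) {i : ι} {a b : S} (hab : a ≠ b) :
    Act κ c ((A.erase a).erase b) (con κ R i a b f) := by
  refine ⟨fun j hj J u => ?_, fun J hJ j hj => ?_⟩
  · unfold con
    refine Finset.sum_congr rfl fun p _ => Finset.sum_congr rfl fun q _ => ?_
    congr 1
    by_cases h1 : j = b
    · subst h1
      rw [update_comm hab.symm, update_idem]
    by_cases h2 : j = a
    · subst h2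
      rw [update_idem]
    have h3 : update (update (update J j u) a p) b q = update (update (update J a p) b q) j u := by
      funext x
      by_cases e1 : x = j
      · subst e1
        rw [update_self, update_of_ne h1, update_of_ne h2, update_self]
      rw [update_of_ne e1]
      by_cases e2 : x = b
      · subst e2
        rw [update_self, update_self]
      rw [update_of_ne e2, update_of_ne e2]
      by_cases e3 : x = a
      · subst e3
        rw [update_self, update_self]
      rw [update_of_ne e3, update_of_ne e3, update_of_ne e1]
    rw [h3]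
    refine hf.indep j ?_ _ _
    intro h3
    exact hj (Finset.mem_erase.2 ⟨h1, Finset.mem_erase.2 ⟨h2, h3⟩⟩)
  · have h1 : ∃ p ∈ blk κ i, ∃ q, R p q * f (update (update J a p) b q) ≠ 0 := by
      by_contra hcon
      push Not at hcon
      exact hJ (Finset.sum_eq_zero fun p hp => Finset.sum_eq_zero fun q _ => hcon p hp q)
    obtain ⟨p, -, q, hpq⟩ := h1
    have h2 := hf.typed _ (right_ne_zero_of_mul hpq) j
      (Finset.mem_of_mem_erase (Finset.mem_of_mem_erase hj))
    have hjb : j ≠ b := Finset.ne_of_mem_erase hj
    have hja : j ≠ a := Finset.ne_of_mem_erase (Finset.mem_of_mem_erase hj)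
    rwa [update_of_ne hjb, update_of_ne hja] at h2

theorem swap_mem {a b : S} (ha : a ∈ A) (hb : b ∈ A) (x : S) : Equiv.swap a b x ∈ A ↔ x ∈ A := by
  by_cases h1 : x = a
  · rw [h1, Equiv.swap_apply_left]
    exact ⟨fun _ => ha, fun _ => hb⟩
  by_cases h2 : x = b
  · rw [h2, Equiv.swap_apply_right]
    exact ⟨fun _ => hb, fun _ => ha⟩
  rw [Equiv.swap_apply_of_ne_of_ne h1 h2]

theorem swap_c {a b : S} (h : c a = c b) (x : S) : c (Equiv.swap a b x) = c x := by
  by_cases h1 : x = a
  · rw [h1, Equiv.swap_apply_left, h]
  by_cases h2 : x = b
  · rw [h2, Equiv.swap_apply_right, h]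
  rw [Equiv.swap_apply_of_ne_of_ne h1 h2]

theorem update_swap (a b : S) (J : S → B) (j : S) (u : B) :
    (fun x => update J j u (Equiv.swap a b x)) =
      update (fun x => J (Equiv.swap a b x)) (Equiv.swap a b j) u := by
  funext x
  by_cases h : x = Equiv.swap a b j
  · rw [h, Equiv.swap_apply_self, update_self, update_self]
  · rw [update_of_ne h, update_of_ne]
    intro h2
    apply h
    rw [← h2, Equiv.swap_apply_self]

theorem act_sw {f : (S → B) → K} (hf : Act κ c A f) {a b : S} (ha : a ∈ A) (hb : b ∈ A)
    (h : c a = c b) : Act κ c A (sw a b f) := by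
  refine ⟨fun j hj J u => ?_, fun J hJ j hj => ?_⟩
  · unfold sw
    rw [update_swap]
    exact hf.indep _ (fun h1 => hj ((swap_mem ha hb j).1 h1)) _ _
  · have h1 := hf.typed _ hJ (Equiv.swap a b j) ((swap_mem ha hb j).2 hj)
    rwa [Equiv.swap_apply_self, swap_c h] at h1

theorem inv_sw {f : (S → B) → K} (hf : InvL κ Q star s lam A f) {a b : S} (ha : a ∈ A)
    (hb : b ∈ A) : InvL κ Q star s lam A (sw a b f) := by
  intro u v huv J
  have h1 := hf u v huv fun x => J (Equiv.swap a b x)
  show _ = lam (κ u) * Q v u * f fun x => J (Equiv.swap a b x)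
  rw [← h1]
  refine Finset.sum_bij (fun j _ => Equiv.swap a b j) (fun j hj => (swap_mem ha hb j).2 hj)
    (fun j _ j' _ h => (Equiv.swap a b).injective h)
    (fun j hj => ⟨Equiv.swap a b j, (swap_mem ha hb j).2 hj, Equiv.swap_apply_self _ _ _⟩) ?_
  intro j _
  unfold sw
  rw [update_swap, update_swap, Equiv.swap_apply_self]

end

end Pool.Agent.X274.DT
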