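import Pool.Agent.X274.DT.Vec
import Pool.Agent.Y142.SV.Stm

/-!
# The first fundamental theorem with determinants, over an algebraically closed field
-/

set_option autoImplicit false
set_option linter.unusedSectionVars false

open Matrix Finset
open Pool.Agent.Y142.ZO (bil)
open Pool.Agent.Y142.SU (Herm SULie)
open Pool.Agent.Y142.SV (LieV Selfadj)
open Pool.Agent.Y710.SV
open Pool.Agent.Y177.SU
open Pool.Agent.X274.SU (exists_star trace_star trace_ne E_ne)

namespace Pool.Agent.X274.DT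

section

variable {F : Type} [Field F] [CharZero F] {N n k : ℕ} {J : Matrix (Fin N) (Fin N) F}
    {𝒞 : Subalgebra F (Matrix (Fin N) (Fin N) F)}

/-- for selfadjoint coefficients the condition on the traces is automatic -/
theorem suLie_of_lieV (hH : Selfadj J 𝒞) {X : Matrix (Fin N) (Fin N) F} (hX : LieV J 𝒞 X) :
    SULie J 𝒞 X := by
  refine ⟨hX.1, hX.2, fun A hA => ?_⟩
  have hdet : IsUnit J.det := isUnit_iff_ne_zero.2 hH.2.1
  have h1 : (X * A)ᵀ * J = -(J * (X * A)) := by
    have h2 : Xᵀ * J = -(J * X) := eq_neg_of_add_eq_zero_left hX.2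
    rw [transpose_mul, mul_assoc, h2, mul_neg, ← mul_assoc, hH.2.2.2 A hA, mul_assoc, hX.1 A hA]
  have h3 : (X * A)ᵀ = -(J * (X * A) * J⁻¹) := by
    calc (X * A)ᵀ = (X * A)ᵀ * J * J⁻¹ := by
          rw [mul_assoc, Matrix.mul_nonsing_inv _ hdet, mul_one]
      _ = _ := by rw [h1, neg_mul]
  have h4 : (X * A).trace = -(X * A).trace := by
    conv_lhs => rw [← Matrix.trace_transpose, h3, Matrix.trace_neg, Matrix.trace_mul_comm,
      ← mul_assoc, Matrix.nonsing_inv_mul _ hdet, one_mul]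
  have h5 : (2 : F) * (X * A).trace = 0 := by linear_combination h4
  exact (mul_eq_zero.1 h5).resolve_left two_ne_zero

/-- the theorem over an algebraically closed field -/
theorem fft_closed [IsAlgClosed F] (al : Prop)
    (hH : (Herm J 𝒞 ∧ al) ∨ (Selfadj J 𝒞 ∧ (Jᵀ = J → al)))
    (hred : ∀ A ∈ 𝒞, IsNilpotent A → A = 0)
    (hrank : ∀ e ∈ 𝒞, e * e = e → e ≠ 0 → n ≤ e.rank)
    (hex : ∀ e ∈ 𝒞, e * e = e → e ≠ 0 → (∀ A ∈ 𝒞, ∃ c : F, A * e = c • e) → e.trace = n)
    (hn : 0 < n)
    (φ : MultilinearMap F (fun _ : Fin k => Fin N → F) F)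
    (hφ : ∀ X, SULie J 𝒞 X → ∀ v : Fin k → Fin N → F,
      ∑ j, φ (Function.update v j (X *ᵥ v j)) = 0) :
    (fun v => φ v) ∈ prdSpan (PP J 𝒞) (DD 𝒞 n al) (univ : Finset (Fin k)) := by
  classical
  have hdet : J.det ≠ 0 := by rcases hH with h | h <;> exact h.1.2.1
  have hcomm : ∀ A ∈ 𝒞, ∀ B ∈ 𝒞, A * B = B * A := by rcases hH with h | h <;> exact h.1.2.2.1
  have hsym : Jᵀ = J ∨ Jᵀ = -J := by rcases hH with h | h <;> exact h.1.1
  have hal : Jᵀ = J → al := by
    rcases hH with h | h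
    · exact fun _ => h.2
    · exact h.2
  obtain ⟨Φ⟩ := exists_frm (n := n) hdet hcomm hred hrank
  have htr : ∀ t, (Φ.E t).trace = (n : F) := fun t =>
    hex _ (Φ.mem t) (X274.SU.E_idem Φ t) (E_ne Φ hn t) fun A hA => Φ.eig A hA t
  have hcard : ∀ t, (blk Φ.κ t).card = n := by
    intro t
    have h1 := htr t
    rw [trace_E] at h1
    exact_mod_cast h1
  obtain ⟨s, hs, hJ, hsa⟩ : ∃ s : F, (s = 1 ∨ s = -1) ∧ Jᵀ = s • J ∧ (s = 1 → al) := by
    by_cases h : Jᵀ = J
    · exact ⟨1, Or.inl rfl, by rw [h, one_smul], fun _ => hal h⟩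
    · refine ⟨-1, Or.inr rfl, by rw [hsym.resolve_left h, neg_smul, one_smul], fun h1 => ?_⟩
      exfalso
      have : (2 : F) = 0 := by linear_combination -h1
      exact two_ne_zero this
  have hss : s * s = 1 := by rcases hs with h | h <;> rw [h] <;> norm_num
  rcases hH with ⟨hH, hal'⟩ | ⟨hH, -⟩
  · obtain ⟨star, hst, hstar, hsn⟩ := exists_star Φ hn hH
    refine main_frm Φ hJ hst hstar al (fun _ _ => hal') hcard φ hs hn ?_
    intro u v huv w
    refine hφ _ ?_ w
    have h1 : Φ.κ u = star (Φ.κ v) := by rw [huv, hstar]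
    have h2 := X274.SU.sw_mem Φ hst hstar hn hss hJ hdet hcomm (a := Φ.κ v) (u := Φ.β v)
      (v := Φ.β u) (by rw [Φ.Eβ, if_pos rfl]) (by rw [Φ.Eβ, if_pos h1])
    rw [htr, ← h1, ← Φ.hQ] at h2
    exact h2
  · refine main_frm Φ hJ (star := id) (fun t => hH.2.2.2 _ (Φ.mem t)) (fun _ => rfl) al
      (fun t h => ?_) hcard φ hs hn ?_
    · rcases h with h | h
      · exact absurd rfl h
      · exact hsa h
    · intro u v huv w
      refine hφ _ ?_ w
      have h1 : Φ.κ v = Φ.κ u := huv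
      have h2 := Φ.sw_mem hss hJ hH.2.2.2 v u h1
      rw [h1, sub_self, smul_zero, sub_zero]
      exact suLie_of_lieV hH h2

end

section bc

variable {K : Type} [Field K] [CharZero K] {N k : ℕ} {𝒞 : Subalgebra K (Matrix (Fin N) (Fin N) K)}
variable {Ω : Type} [Field Ω] [Algebra K Ω]

/-- the exact rank of the primitive idempotents -/
theorem bc_exact [CharZero Ω] {n : ℕ} (hcomm : ∀ A ∈ 𝒞, ∀ B ∈ 𝒞, A * B = B * A)
    (hred : ∀ A ∈ 𝒞, IsNilpotent A → A = 0)
    (htr : ∀ A : 𝒞, (A : Matrix (Fin N) (Fin N) K).trace =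
      (n : K) * LinearMap.trace K 𝒞 (LinearMap.mulLeft K A)) :
    ∀ e ∈ bc 𝒞 Ω, e * e = e → e ≠ 0 → (∀ A ∈ bc 𝒞 Ω, ∃ c : Ω, A * e = c • e) →
      e.trace = n := by
  intro e he hee hne heig
  set b := Module.finBasis K 𝒞 with hb
  obtain ⟨c, hc⟩ := coords b he
  set L : Matrix (Fin (Module.finrank K 𝒞)) (Fin (Module.finrank K 𝒞)) Ω :=
    ∑ i, c i • (Algebra.leftMulMatrix b (b i)).map (algebraMap K Ω) with hL
  have hmul : ∀ j, e * up Ω (b j : Matrix (Fin N) (Fin N) K) =
      ∑ k, L k j • up Ω (b k : Matrix (Fin N) (Fin N) K) := by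
    intro j
    rw [hc]
    exact mul_coords b c j
  have hind : ∀ a : Fin (Module.finrank K 𝒞) → Ω,
      ∑ k, a k • up Ω (b k : Matrix (Fin N) (Fin N) K) = 0 → a = 0 := by
    intro a ha
    apply coords_zero b hred a
    intro j
    rw [ha, zero_mul, Matrix.trace_zero]
  choose a ha using fun j => heig _ (up_mem (Ω := Ω) (b j).2)
  have hLa : ∀ l j, L l j = a j * c l := by
    intro l j
    have h1 : ∑ k, (L k j - a j * c k) • up Ω (b k : Matrix (Fin N) (Fin N) K) = 0 := by
      simp only [sub_smul, Finset.sum_sub_distrib]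
      rw [← hmul j, bc_comm hcomm e he _ (up_mem (b j).2), ha j]
      conv_lhs => rw [hc]
      rw [Finset.smul_sum, sub_eq_zero]
      exact Finset.sum_congr rfl fun k _ => by rw [smul_smul]
    have h2 := congrFun (hind _ h1) l
    simp only [Pi.zero_apply] at h2
    exact sub_eq_zero.1 h2
  have hLt : L.trace = 1 := by
    have h1 : (∑ l, c l * a l) • e = e := by
      have h2 : e = (∑ i, c i • up Ω (b i : Matrix (Fin N) (Fin N) K)) * e := by
        rw [← hc, hee]
      conv_rhs => rw [h2]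
      rw [Finset.sum_mul, Finset.sum_smul]
      exact Finset.sum_congr rfl fun l _ => by rw [smul_mul_assoc, ha, smul_smul]
    have h3 : ((∑ l, c l * a l) - 1) • e = 0 := by rw [sub_smul, h1, one_smul, sub_self]
    rcases smul_eq_zero.1 h3 with h4 | h4
    · rw [← sub_eq_zero, ← h4]
      unfold Matrix.trace
      simp only [Matrix.diag_apply, hLa]
      congr 1
      exact Finset.sum_congr rfl fun l _ => mul_comm _ _
    · exact absurd h4 hne
  have htL : e.trace = (n : Ω) * L.trace := by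
    rw [hc, hL, Matrix.trace_sum, Matrix.trace_sum, Finset.mul_sum]
    refine Finset.sum_congr rfl fun i _ => ?_
    rw [Matrix.trace_smul, Matrix.trace_smul, up_trace, htr (b i)]
    have h1 : LinearMap.trace K 𝒞 (LinearMap.mulLeft K (b i)) =
        (Algebra.leftMulMatrix b (b i)).trace := by
      rw [LinearMap.trace_eq_matrix_trace K b, Algebra.leftMulMatrix_apply]
      rfl
    have h2 : ((Algebra.leftMulMatrix b (b i)).map (algebraMap K Ω)).trace =
        algebraMap K Ω (Algebra.leftMulMatrix b (b i)).trace := by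
      unfold Matrix.trace
      simp
    rw [h1, h2, map_mul, map_natCast, smul_eq_mul, smul_eq_mul]
    ring
  rw [htL, hLt, mul_one]

end bc

end Pool.Agent.X274.DT
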