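import Mathlib

/-!
# Products of basic forms
-/

set_option autoImplicit false
set_option linter.unusedSectionVars false

open Finset

namespace Pool.Agent.X274.DT

/-- products of the basic forms, those in two variables in `P` and those in `m` variables in `D m`,
in which every variable of the set `A` occurs exactly once -/
inductive Prd {F : Type} [Field F] {X : Type} {k : ℕ} (P : Set (X → X → F))
    (D : ∀ m : ℕ, Set ((Fin m → X) → F)) : Finset (Fin k) → ((Fin k → X) → F) → Prop
  | one : Prd P D ∅ fun _ => 1
  | pair {A : Finset (Fin k)} {f : (Fin k → X) → F} (b : X → X → F) (hb : b ∈ P) (j j' : Fin k)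
      (hne : j ≠ j') (hj : j ∉ A) (hj' : j' ∉ A) (h : Prd P D A f) :
      Prd P D (insert j (insert j' A)) fun v => b (v j) (v j') * f v
  | det {A : Finset (Fin k)} {f : (Fin k → X) → F} (m : ℕ) (δ : (Fin m → X) → F) (hδ : δ ∈ D m)
      (e : Fin m ↪ Fin k) (hA : ∀ l, e l ∉ A) (h : Prd P D A f) :
      Prd P D (univ.map e ∪ A) fun v => δ (fun l => v (e l)) * f v

variable {F : Type} [Field F] {X : Type} {k : ℕ}

/-- the span of the products -/
def prdSpan (P : Set (X → X → F)) (D : ∀ m : ℕ, Set ((Fin m → X) → F)) (A : Finset (Fin k)) :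
    Submodule F ((Fin k → X) → F) := Submodule.span F {f | Prd P D A f}

theorem Prd.union {P : Set (X → X → F)} {D : ∀ m : ℕ, Set ((Fin m → X) → F)}
    {A B : Finset (Fin k)} {f g : (Fin k → X) → F} (hf : Prd P D A f) (hg : Prd P D B g)
    (h : Disjoint A B) : Prd P D (A ∪ B) (f * g) := by
  induction hf with
  | one =>
    rw [empty_union]
    have : (fun _ => 1 : (Fin k → X) → F) * g = g := by
      funext v
      exact one_mul _
    rw [this]
    exact hg
  | @pair A f b hb j j' hne hj hj' hf ih =>
    rw [disjoint_insert_left, disjoint_insert_left] at h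
    rw [insert_union, insert_union]
    have h1 := Prd.pair b hb j j' hne (A := A ∪ B) (by
      rw [mem_union, not_or]
      exact ⟨hj, h.1⟩) (by
      rw [mem_union, not_or]
      exact ⟨hj', h.2.1⟩) (ih h.2.2)
    have h2 : ((fun v => b (v j) (v j') * f v : (Fin k → X) → F) * g) =
        fun v => b (v j) (v j') * (f * g) v := by
      funext v
      exact mul_assoc _ _ _
    rw [h2]
    exact h1
  | @det A f m δ hδ e hA hf ih =>
    rw [disjoint_union_left] at h
    have h1 := Prd.det m δ hδ e (A := A ∪ B) (fun l => by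
      rw [mem_union, not_or]
      exact ⟨hA l, Finset.disjoint_left.1 h.1 (mem_map_of_mem e (mem_univ l))⟩) (ih h.2)
    have h2 : ((fun v => δ (fun l => v (e l)) * f v : (Fin k → X) → F) * g) =
        fun v => δ (fun l => v (e l)) * (f * g) v := by
      funext v
      exact mul_assoc _ _ _
    rw [h2, union_assoc]
    exact h1

theorem prdSpan_mul {P : Set (X → X → F)} {D : ∀ m : ℕ, Set ((Fin m → X) → F)}
    {A B : Finset (Fin k)} {f g : (Fin k → X) → F} (hf : f ∈ prdSpan P D A)
    (hg : g ∈ prdSpan P D B) (h : Disjoint A B) : f * g ∈ prdSpan P D (A ∪ B) := by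
  have h1 := Submodule.mul_mem_mul hf hg
  unfold prdSpan at h1 ⊢
  rw [Submodule.span_mul_span] at h1
  refine Submodule.span_mono ?_ h1
  rintro _ ⟨f', hf', g', hg', rfl⟩
  exact Prd.union hf' hg' h

/-- multiplication with a function -/
def mulF (q : (Fin k → X) → F) : ((Fin k → X) → F) →ₗ[F] ((Fin k → X) → F) where
  toFun g := fun J => q J * g J
  map_add' g h := by
    funext J
    exact mul_add _ _ _
  map_smul' a g := by
    funext J
    exact mul_left_comm _ _ _

theorem mul_prdSpan {P : Set (X → X → F)} {D : ∀ m : ℕ, Set ((Fin m → X) → F)}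
    {A A' : Finset (Fin k)} {q : (Fin k → X) → F}
    (h : ∀ g, Prd P D A g → Prd P D A' fun J => q J * g J)
    {g : (Fin k → X) → F} (hg : g ∈ prdSpan P D A) : (fun J => q J * g J) ∈ prdSpan P D A' := by
  have h1 : mulF q g ∈ (prdSpan P D A).map (mulF q) := Submodule.mem_map_of_mem hg
  unfold prdSpan at h1 ⊢
  rw [Submodule.map_span] at h1
  refine Submodule.span_mono ?_ h1
  rintro _ ⟨g', hg', rfl⟩
  exact h g' hg'

/-- change of the space and of the variables -/
theorem Prd.pull {X' : Type} {k' : ℕ} {P : Set (X → X → F)}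
    {D : ∀ m : ℕ, Set ((Fin m → X) → F)} {P' : Set (X' → X' → F)}
    {D' : ∀ m : ℕ, Set ((Fin m → X') → F)} (p : X' → X) (e : Fin k ↪ Fin k')
    (hP : ∀ b ∈ P, (fun x y => b (p x) (p y)) ∈ P')
    (hD : ∀ m, ∀ δ ∈ D m, (fun x => δ fun l => p (x l)) ∈ D' m)
    {A : Finset (Fin k)} {f : (Fin k → X) → F} (hf : Prd P D A f) :
    Prd P' D' (A.map e) fun v => f fun j => p (v (e j)) := by
  induction hf with
  | one =>
    rw [map_empty]
    exact Prd.one
  | @pair A f b hb j j' hne hj hj' hf ih =>
    rw [map_insert, map_insert]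
    exact Prd.pair _ (hP b hb) (e j) (e j') (fun h => hne (e.injective h))
      (fun h => by
        obtain ⟨l, hl, hl'⟩ := mem_map.1 h
        exact hj (e.injective hl' ▸ hl))
      (fun h => by
        obtain ⟨l, hl, hl'⟩ := mem_map.1 h
        exact hj' (e.injective hl' ▸ hl)) ih
  | @det A f m δ hδ e' hA hf ih =>
    have h1 := Prd.det m _ (hD m δ hδ) (e'.trans e) (A := A.map e) (fun l h => by
      obtain ⟨l', hl, hl'⟩ := mem_map.1 h
      exact hA l (e.injective hl' ▸ hl)) ih
    rw [map_union, map_map]
    exact h1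

/-- descent to a smaller field -/
theorem desc_prd {K Ω : Type} [Field K] [Field Ω] [Algebra K Ω] {Y Z : Type} (up : Y → Z)
    {P : Set (Z → Z → Ω)} {D : ∀ m : ℕ, Set ((Fin m → Z) → Ω)} {P' : Set (Y → Y → K)}
    {D' : ∀ m : ℕ, Set ((Fin m → Y) → K)}
    (hP : ∀ b ∈ P, ∃ (d : ℕ) (c : Fin d → Ω) (b' : Fin d → Y → Y → K), (∀ i, b' i ∈ P') ∧
      ∀ x y, b (up x) (up y) = ∑ i, c i * algebraMap K Ω (b' i x y))
    (hD : ∀ m, ∀ δ ∈ D m, ∃ (d : ℕ) (c : Fin d → Ω) (δ' : Fin d → (Fin m → Y) → K),
      (∀ i, δ' i ∈ D' m) ∧ ∀ x, δ (fun l => up (x l)) = ∑ i, c i * algebraMap K Ω (δ' i x))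
    (r : Ω →ₗ[K] K) {A : Finset (Fin k)} {f : (Fin k → Z) → Ω} (hf : Prd P D A f) :
    ∀ ω : Ω, (fun v : Fin k → Y => r (ω * f fun j => up (v j))) ∈ prdSpan P' D' A := by
  induction hf with
  | one =>
    intro ω
    have h1 : (fun v : Fin k → Y => r (ω * 1)) = r (ω * 1) • fun _ => (1 : K) := by
      funext v
      simp
    rw [h1]
    exact Submodule.smul_mem _ _ (Submodule.subset_span Prd.one)
  | @pair A f b hb j j' hne hj hj' hf ih =>
    intro ω
    obtain ⟨d, c, b', hb', hbb⟩ := hP b hb
    have h1 : (fun v : Fin k → Y => r (ω * (b (up (v j)) (up (v j')) * f fun j => up (v j)))) =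
        ∑ i, fun v : Fin k → Y => b' i (v j) (v j') * r (ω * c i * f fun j => up (v j)) := by
      funext v
      rw [Finset.sum_apply, hbb, Finset.sum_mul, Finset.mul_sum, map_sum]
      refine Finset.sum_congr rfl fun i _ => ?_
      rw [← smul_eq_mul (a := b' i (v j) (v j')), ← map_smul, Algebra.smul_def]
      congr 1
      ring
    rw [h1]
    refine Submodule.sum_mem _ fun i _ => ?_
    exact mul_prdSpan (q := fun v : Fin k → Y => b' i (v j) (v j'))
      (fun g hg => Prd.pair (b' i) (hb' i) j j' hne hj hj' hg) (ih (ω * c i))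
  | @det A f m δ hδ e hA hf ih =>
    intro ω
    obtain ⟨d, c, δ', hδ', hδδ⟩ := hD m δ hδ
    have h1 : (fun v : Fin k → Y => r (ω * (δ (fun l => up (v (e l))) * f fun j => up (v j)))) =
        ∑ i, fun v : Fin k → Y => δ' i (fun l => v (e l)) *
          r (ω * c i * f fun j => up (v j)) := by
      funext v
      rw [Finset.sum_apply, hδδ fun l => v (e l), Finset.sum_mul, Finset.mul_sum, map_sum]
      refine Finset.sum_congr rfl fun i _ => ?_
      rw [← smul_eq_mul (a := δ' i fun l => v (e l)), ← map_smul, Algebra.smul_def]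
      congr 1
      ring
    rw [h1]
    refine Submodule.sum_mem _ fun i _ => ?_
    exact mul_prdSpan (q := fun v : Fin k → Y => δ' i fun l => v (e l))
      (fun g hg => Prd.det m (δ' i) (hδ' i) e hA hg) (ih (ω * c i))

theorem desc_prdSpan {K Ω : Type} [Field K] [Field Ω] [Algebra K Ω] {Y Z : Type} (up : Y → Z)
    {P : Set (Z → Z → Ω)} {D : ∀ m : ℕ, Set ((Fin m → Z) → Ω)} {P' : Set (Y → Y → K)}
    {D' : ∀ m : ℕ, Set ((Fin m → Y) → K)}
    (hP : ∀ b ∈ P, ∃ (d : ℕ) (c : Fin d → Ω) (b' : Fin d → Y → Y → K), (∀ i, b' i ∈ P') ∧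
      ∀ x y, b (up x) (up y) = ∑ i, c i * algebraMap K Ω (b' i x y))
    (hD : ∀ m, ∀ δ ∈ D m, ∃ (d : ℕ) (c : Fin d → Ω) (δ' : Fin d → (Fin m → Y) → K),
      (∀ i, δ' i ∈ D' m) ∧ ∀ x, δ (fun l => up (x l)) = ∑ i, c i * algebraMap K Ω (δ' i x))
    (r : Ω →ₗ[K] K) {A : Finset (Fin k)} {f : (Fin k → Z) → Ω} (hf : f ∈ prdSpan P D A) :
    ∀ ω : Ω, (fun v : Fin k → Y => r (ω * f fun j => up (v j))) ∈ prdSpan P' D' A := by
  unfold prdSpan at hf
  induction hf using Submodule.span_induction with
  | mem f hf => exact desc_prd up hP hD r hf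
  | zero =>
    intro ω
    have h1 : (fun v : Fin k → Y => r (ω * (0 : (Fin k → Z) → Ω) fun j => up (v j))) = 0 := by
      funext v
      simp
    rw [h1]
    exact Submodule.zero_mem _
  | add f g _ _ h1 h2 =>
    intro ω
    have h3 : (fun v : Fin k → Y => r (ω * (f + g) fun j => up (v j))) =
        (fun v => r (ω * f fun j => up (v j))) + fun v => r (ω * g fun j => up (v j)) := by
      funext v
      simp only [Pi.add_apply, mul_add, map_add]
    rw [h3]
    exact Submodule.add_mem _ (h1 ω) (h2 ω)
  | smul a f _ h1 =>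
    intro ω
    have h3 : (fun v : Fin k → Y => r (ω * (a • f) fun j => up (v j))) =
        fun v => r (ω * a * f fun j => up (v j)) := by
      funext v
      simp only [Pi.smul_apply, smul_eq_mul, mul_assoc]
    rw [h3]
    exact h1 (ω * a)

/-- multilinear in the variables of `A`, independent of the other variables -/
structure MLn [AddCommGroup X] [Module F X] (A : Finset (Fin k)) (f : (Fin k → X) → F) : Prop where
  add : ∀ j ∈ A, ∀ v x y, f (Function.update v j (x + y)) =
    f (Function.update v j x) + f (Function.update v j y)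
  smul : ∀ j ∈ A, ∀ v (c : F) x, f (Function.update v j (c • x)) = c * f (Function.update v j x)
  indep : ∀ j ∉ A, ∀ v x, f (Function.update v j x) = f v

section ml

variable [AddCommGroup X] [Module F X]

theorem MLn.one : MLn ∅ fun _ : Fin k → X => (1 : F) :=
  ⟨fun j hj => absurd hj (notMem_empty j), fun j hj => absurd hj (notMem_empty j),
    fun _ _ _ _ => rfl⟩

theorem MLn.mul {A B : Finset (Fin k)} {f g : (Fin k → X) → F} (hf : MLn A f) (hg : MLn B g)
    (h : Disjoint A B) : MLn (A ∪ B) fun v => f v * g v := by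
  refine ⟨fun j hj v x y => ?_, fun j hj v c x => ?_, fun j hj v x => ?_⟩
  · rcases mem_union.1 hj with h1 | h1
    · rw [hf.add j h1, hg.indep j (Finset.disjoint_left.1 h h1),
        hg.indep j (Finset.disjoint_left.1 h h1), hg.indep j (Finset.disjoint_left.1 h h1), add_mul]
    · have h2 := Finset.disjoint_right.1 h h1
      rw [hg.add j h1, hf.indep j h2, hf.indep j h2, hf.indep j h2, mul_add]
  · rcases mem_union.1 hj with h1 | h1
    · rw [hf.smul j h1, hg.indep j (Finset.disjoint_left.1 h h1),
        hg.indep j (Finset.disjoint_left.1 h h1), mul_assoc]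
    · have h2 := Finset.disjoint_right.1 h h1
      rw [hg.smul j h1, hf.indep j h2, hf.indep j h2, mul_left_comm]
  · rw [mem_union, not_or] at hj
    rw [hf.indep j hj.1, hg.indep j hj.2]

/-- a multilinear map -/
def MLn.toMap {f : (Fin k → X) → F} (hf : MLn univ f) :
    MultilinearMap F (fun _ : Fin k => X) F where
  toFun := f
  map_update_add' := by
    intro inst v j x y
    have : inst = instDecidableEqFin _ := Subsingleton.elim _ _
    subst this
    exact hf.add j (mem_univ j) v x y
  map_update_smul' := by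
    intro inst v j c x
    have : inst = instDecidableEqFin _ := Subsingleton.elim _ _
    subst this
    exact hf.smul j (mem_univ j) v c x

/-- the products are multilinear -/
theorem Prd.ml {P : Set (X → X → F)} {D : ∀ m : ℕ, Set ((Fin m → X) → F)}
    (hP : ∀ b ∈ P, ∃ B : X →ₗ[F] X →ₗ[F] F, ∀ x y, b x y = B x y)
    (hD : ∀ m, ∀ δ ∈ D m, ∃ B : MultilinearMap F (fun _ : Fin m => X) F, ∀ x, δ x = B x)
    {A : Finset (Fin k)} {f : (Fin k → X) → F} (hf : Prd P D A f) : MLn A f := by
  induction hf with
  | one => exact MLn.one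
  | @pair A f b hb j j' hne hj hj' hf ih =>
    obtain ⟨B, hB⟩ := hP b hb
    have h1 : MLn {j, j'} fun v : Fin k → X => b (v j) (v j') := by
      refine ⟨fun l hl v x y => ?_, fun l hl v c x => ?_, fun l hl v x => ?_⟩
      · rw [mem_insert, mem_singleton] at hl
        simp only [hB]
        rcases hl with rfl | rfl
        · simp only [Function.update_self, Function.update_of_ne hne.symm]
          rw [map_add]
          rfl
        · simp only [Function.update_self, Function.update_of_ne hne]
          rw [map_add]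
      · rw [mem_insert, mem_singleton] at hl
        simp only [hB]
        rcases hl with rfl | rfl
        · simp only [Function.update_self, Function.update_of_ne hne.symm]
          rw [map_smul]
          rfl
        · simp only [Function.update_self, Function.update_of_ne hne]
          rw [map_smul]
          rfl
      · rw [mem_insert, mem_singleton, not_or] at hl
        simp only [Function.update_of_ne (Ne.symm hl.1), Function.update_of_ne (Ne.symm hl.2)]
    have h2 := h1.mul ih (by
      rw [disjoint_insert_left, disjoint_singleton_left]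
      exact ⟨hj, hj'⟩)
    rwa [insert_union, singleton_union] at h2
  | @det A f m δ hδ e hA hf ih =>
    obtain ⟨B, hB⟩ := hD m δ hδ
    have hup : ∀ (v : Fin k → X) (l : Fin m) (x : X),
        (fun l' => Function.update v (e l) x (e l')) = Function.update (fun l' => v (e l')) l x := by
      intro v l x
      funext l'
      by_cases h : l' = l
      · subst h
        rw [Function.update_self, Function.update_self]
      · rw [Function.update_of_ne h, Function.update_of_ne fun h' => h (e.injective h')]
    have h1 : MLn (univ.map e) fun v : Fin k → X => δ fun l => v (e l) := by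
      refine ⟨fun l hl v x y => ?_, fun l hl v c x => ?_, fun l hl v x => ?_⟩
      · obtain ⟨l, -, rfl⟩ := mem_map.1 hl
        simp only [hB]
        rw [hup, hup, hup, MultilinearMap.map_update_add]
      · obtain ⟨l, -, rfl⟩ := mem_map.1 hl
        simp only [hB]
        rw [hup, hup, MultilinearMap.map_update_smul, smul_eq_mul]
      · show δ _ = δ _
        congr 1
        funext l'
        rw [Function.update_of_ne]
        intro h
        exact hl (h ▸ mem_map_of_mem e (mem_univ l'))
    exact h1.mul ih (by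
      rw [Finset.disjoint_left]
      intro x hx
      obtain ⟨l, -, rfl⟩ := mem_map.1 hx
      exact hA l)

end ml

end Pool.Agent.X274.DT
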