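import Pool.Agent.X274.DT.FftC
import Pool.Agent.X274.DT.Prd
import Pool.Agent.X274.SU.Fftu
import Pool.Agent.Y177.SU.Alg2

/-!
# The first fundamental theorem with determinants, for a frame
-/

set_option autoImplicit false
set_option linter.unusedSectionVars false

open Matrix Finset
open Pool.Agent.Y142.ZO (bil)
open Pool.Agent.Y710.SV
open Pool.Agent.X274.SU (E_idem E_orth Q_zero R_zero RQ_apply bil_sum_left bil_sum_right)

namespace Pool.Agent.X274.DT

variable {F : Type} [Field F] {N n k : ℕ} {J : Matrix (Fin N) (Fin N) F}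
    {𝒞 : Subalgebra F (Matrix (Fin N) (Fin N) F)}

/-- the basic forms in two variables -/
def PP (J : Matrix (Fin N) (Fin N) F) (𝒞 : Subalgebra F (Matrix (Fin N) (Fin N) F)) :
    Set ((Fin N → F) → (Fin N → F) → F) := {b | ∃ a ∈ 𝒞, ∀ x y, b x y = (a *ᵥ x) ⬝ᵥ J *ᵥ y}

/-- the basic alternating forms in `n` variables -/
def DD (𝒞 : Subalgebra F (Matrix (Fin N) (Fin N) F)) (n : ℕ) (al : Prop) (m : ℕ) :
    Set ((Fin m → Fin N → F) → F) :=
  {δ | m = n ∧ al ∧ ∃ ω : (Fin N → F) [⋀^Fin m]→ₗ[F] F,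
    (∀ A ∈ 𝒞, ∀ (x : Fin m → Fin N → F) (l l' : Fin m),
      ω (Function.update x l (A *ᵥ x l)) = ω (Function.update x l' (A *ᵥ x l'))) ∧
    ∀ x, δ x = ω x}

theorem PP_bil {b : (Fin N → F) → (Fin N → F) → F} (hb : b ∈ PP J 𝒞) :
    ∃ B : (Fin N → F) →ₗ[F] (Fin N → F) →ₗ[F] F, ∀ x y, b x y = B x y := by
  obtain ⟨a, -, hab⟩ := hb
  refine ⟨LinearMap.mk₂ F (fun x y => (a *ᵥ x) ⬝ᵥ J *ᵥ y)
    (fun x x' y => by rw [mulVec_add, add_dotProduct])
    (fun c x y => by rw [mulVec_smul, smul_dotProduct])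
    (fun x y y' => by rw [mulVec_add, dotProduct_add])
    (fun c x y => by rw [mulVec_smul, dotProduct_smul]), fun x y => ?_⟩
  rw [hab]
  rfl

theorem DD_ml {al : Prop} {m : ℕ} {δ : (Fin m → Fin N → F) → F} (hδ : δ ∈ DD 𝒞 n al m) :
    ∃ B : MultilinearMap F (fun _ : Fin m => Fin N → F) F, ∀ x, δ x = B x := by
  obtain ⟨-, -, ω, -, hω⟩ := hδ
  exact ⟨ω.toMultilinearMap, hω⟩

theorem mln_span {X : Type} [AddCommGroup X] [Module F X] {P : Set (X → X → F)}
    {D : ∀ m : ℕ, Set ((Fin m → X) → F)}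
    (hP : ∀ b ∈ P, ∃ B : X →ₗ[F] X →ₗ[F] F, ∀ x y, b x y = B x y)
    (hD : ∀ m, ∀ δ ∈ D m, ∃ B : MultilinearMap F (fun _ : Fin m => X) F, ∀ x, δ x = B x)
    {A : Finset (Fin k)} {f : (Fin k → X) → F} (hf : f ∈ prdSpan P D A) : MLn A f := by
  unfold prdSpan at hf
  induction hf using Submodule.span_induction with
  | mem f hf => exact Prd.ml hP hD hf
  | zero =>
    refine ⟨fun j _ v x y => ?_, fun j _ v c x => ?_, fun j _ v x => ?_⟩ <;> simp
  | add f g _ _ h1 h2 =>
    refine ⟨fun j hj v x y => ?_, fun j hj v c x => ?_, fun j hj v x => ?_⟩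
    · simp only [Pi.add_apply, h1.add j hj, h2.add j hj]
      ring
    · simp only [Pi.add_apply, h1.smul j hj, h2.smul j hj]
      ring
    · simp only [Pi.add_apply, h1.indep j hj, h2.indep j hj]
  | smul a f _ h1 =>
    refine ⟨fun j hj v x y => ?_, fun j hj v c x => ?_, fun j hj v x => ?_⟩
    · simp only [Pi.smul_apply, smul_eq_mul, h1.add j hj]
      ring
    · simp only [Pi.smul_apply, smul_eq_mul, h1.smul j hj]
      ring
    · simp only [Pi.smul_apply, h1.indep j hj]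

variable (Φ : Frm J 𝒞 n)

/-- the dual basis -/
noncomputable def bd (s : Φ.S) : Fin N → F := ∑ p, Φ.R s p • Φ.β p

theorem bd_β (s u : Φ.S) : bil J (bd Φ s) (Φ.β u) = if s = u then 1 else 0 := by
  unfold bd
  rw [bil_sum_left, ← RQ_apply]
  exact Finset.sum_congr rfl fun p _ => by rw [Φ.hQ]

theorem expand_β (v : Fin N → F) : v = ∑ s, bil J (bd Φ s) v • Φ.β s := by
  have h1 : ∀ s, bil J (bd Φ s) v = Φ.co s v := by
    intro s
    conv_lhs => rw [Φ.full v]
    rw [bil_sum_right, Finset.sum_congr rfl fun u _ => by rw [bd_β]]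
    simp
  conv_lhs => rw [Φ.full v]
  exact Finset.sum_congr rfl fun s _ => by rw [h1]

theorem trace_β (M : Matrix (Fin N) (Fin N) F) :
    M.trace = ∑ s, bil J (bd Φ s) (M *ᵥ Φ.β s) := by
  have h1 : M = ∑ s, vecMulVec (M *ᵥ Φ.β s) (bd Φ s ᵥ* J) := by
    have h2 : ∀ v, M *ᵥ v = (∑ s, vecMulVec (M *ᵥ Φ.β s) (bd Φ s ᵥ* J)) *ᵥ v := by
      intro v
      conv_lhs => rw [expand_β Φ v]
      rw [Matrix.mulVec_sum, Matrix.sum_mulVec]
      refine Finset.sum_congr rfl fun s _ => ?_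
      rw [mulVec_smul, vecMulVec_mulVec, ← dotProduct_mulVec, op_smul_eq_smul]
      rfl
    ext i j
    have h3 := congrFun (h2 (Pi.single j 1)) i
    simpa using h3
  conv_lhs => rw [h1]
  rw [Matrix.trace_sum]
  refine Finset.sum_congr rfl fun s _ => ?_
  rw [Matrix.trace_vecMulVec]
  unfold bil
  rw [dotProduct_comm, ← dotProduct_mulVec]

theorem trace_E (t : Φ.T) : (Φ.E t).trace = ((blk Φ.κ t).card : F) := by
  rw [trace_β]
  have h1 : ∀ s, bil J (bd Φ s) (Φ.E t *ᵥ Φ.β s) = if Φ.κ s = t then 1 else 0 := by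
    intro s
    rw [Φ.Eβ]
    split_ifs
    · rw [bd_β, if_pos rfl]
    · unfold bil
      rw [mulVec_zero, dotProduct_zero]
  rw [Finset.sum_congr rfl fun s _ => h1 s, Finset.sum_boole]
  rfl

theorem bd_mul {A : Matrix (Fin N) (Fin N) F} {α : Φ.T → F}
    (hα : ∀ t, A * Φ.E t = α t • Φ.E t) (s : Φ.S) (x : Fin N → F) :
    bil J (bd Φ s) (A *ᵥ x) = α (Φ.κ s) * bil J (bd Φ s) x := by
  have h1 : ∀ u, A *ᵥ Φ.β u = α (Φ.κ u) • Φ.β u := by
    intro u
    have h2 : Φ.E (Φ.κ u) *ᵥ Φ.β u = Φ.β u := by rw [Φ.Eβ, if_pos rfl]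
    conv_lhs => rw [← h2]
    rw [mulVec_mulVec, hα, smul_mulVec, h2]
  conv_lhs => rw [expand_β Φ x, Matrix.mulVec_sum]
  have h3 : ∑ s, A *ᵥ (bil J (bd Φ s) x • Φ.β s) =
      ∑ s, (bil J (bd Φ s) x * α (Φ.κ s)) • Φ.β s :=
    Finset.sum_congr rfl fun u _ => by rw [mulVec_smul, h1, smul_smul]
  rw [h3, bil_sum_right]
  simp only [bd_β, mul_ite, mul_one, mul_zero, Finset.sum_ite_eq, mem_univ, if_true]
  ring

section frame

variable {s : F} (hJ : Jᵀ = s • J) {star : Φ.T → Φ.T}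
  (hst : ∀ t, (Φ.E t)ᵀ * J = J * Φ.E (star t)) (hss : ∀ t, star (star t) = t)
  (al : Prop) (hal : ∀ t, (star t ≠ t ∨ s = 1) → al) (hcard : ∀ t, (blk Φ.κ t).card = n)

/-- values on the basis -/
def evb : ((Fin k → Fin N → F) → F) →ₗ[F] ((Fin k → Φ.S) → F) where
  toFun f I := f fun j => Φ.β (I j)
  map_add' _ _ := rfl
  map_smul' _ _ := rfl

include hst hss hal hcard in
theorem gen_prd {τ : Fin k → Φ.T} {A : Finset (Fin k)} {g : (Fin k → Φ.S) → F}
    (hg : GenF Φ.κ Φ.Q star s τ A g) :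
    ∃ f, Prd (PP J 𝒞) (DD 𝒞 n al) A f ∧ evb Φ f = g := by
  induction hg with
  | one => exact ⟨_, Prd.one, rfl⟩
  | @pair A g a b hab ha hb hc h ih =>
    obtain ⟨f, hf, hfg⟩ := ih
    have hp : (fun x y => (Φ.E (τ a) *ᵥ x) ⬝ᵥ J *ᵥ y) ∈ PP J 𝒞 :=
      ⟨Φ.E (τ a), Φ.mem _, fun _ _ => rfl⟩
    refine ⟨_, Prd.pair _ hp a b hab ha hb hf, ?_⟩
    funext I
    show ((Φ.E (τ a) *ᵥ Φ.β (I a)) ⬝ᵥ J *ᵥ Φ.β (I b)) * evb Φ f I = _
    rw [hfg, Φ.Eβ]
    congr 1
    by_cases h1 : Φ.κ (I a) = τ a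
    · rw [if_pos h1]
      by_cases h2 : Φ.κ (I b) = τ b
      · rw [if_pos ⟨h1, h2⟩, Φ.hQ]
        rfl
      · rw [if_neg fun h => h2 h.2]
        have h3 := Q_zero Φ hst hss (a := I a) (b := I b) (by rw [h1, ← hc]; exact h2)
        rw [Φ.hQ] at h3
        exact h3
    · rw [if_neg h1, if_neg fun h => h1 h.1, zero_dotProduct]
  | @det A g i hi d e t ht he hA h ih =>
    obtain ⟨f, hf, hfg⟩ := ih
    have hd : d = n := by
      have h1 := congrArg Finset.card ht
      rw [card_map, card_univ, Fintype.card_fin, hcard] at h1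
      exact h1
    let L : (Fin N → F) →ₗ[F] (Fin d → F) :=
      { toFun := fun x l => bil J (bd Φ (t l)) x
        map_add' := fun x y => by
          funext l
          show bil J _ _ = bil J _ _ + bil J _ _
          unfold bil
          rw [mulVec_add, dotProduct_add]
        map_smul' := fun c x => by
          funext l
          show bil J _ _ = c * bil J _ _
          unfold bil
          rw [mulVec_smul, dotProduct_smul, smul_eq_mul] }
    let ω : (Fin N → F) [⋀^Fin d]→ₗ[F] F := Matrix.detRowAlternating.compLinearMap L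
    have hω : ∀ x, ω x = (Matrix.of fun m l => bil J (bd Φ (t l)) (x m)).det := fun x => rfl
    have hκt : ∀ l, Φ.κ (t l) = i := fun l => by
      have h1 : t l ∈ blk Φ.κ i := by
        rw [← ht]
        exact mem_map_of_mem t (mem_univ l)
      exact mem_blk.1 h1
    have hbal : ∀ A ∈ 𝒞, ∀ (x : Fin d → Fin N → F) (l l' : Fin d),
        ω (Function.update x l (A *ᵥ x l)) = ω (Function.update x l' (A *ᵥ x l')) := by
      intro A hA' x l l'
      choose α hα using Φ.eig A hA'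
      have h1 : ∀ l, ω (Function.update x l (A *ᵥ x l)) = α i * ω x := by
        intro l
        have h2 : L (A *ᵥ x l) = α i • L (x l) := by
          funext m
          show bil J (bd Φ (t m)) (A *ᵥ x l) = α i * bil J (bd Φ (t m)) (x l)
          rw [bd_mul Φ hα, hκt]
        have h3 : ω (Function.update x l (A *ᵥ x l)) = Matrix.detRowAlternating
            (Function.update (fun m => L (x m)) l (L (A *ᵥ x l))) := by
          show Matrix.detRowAlternating (fun m => L (Function.update x l (A *ᵥ x l) m)) = _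
          congr 1
          funext m
          by_cases hm : m = l
          · subst hm
            rw [Function.update_self, Function.update_self]
          · rw [Function.update_of_ne hm, Function.update_of_ne hm]
        rw [h3, h2, AlternatingMap.map_update_smul, Function.update_eq_self]
        rfl
      rw [h1, h1]
    have hp : (fun x => ω x) ∈ DD 𝒞 n al d := ⟨hd, hal i hi, ω, hbal, fun _ => rfl⟩
    refine ⟨_, Prd.det d _ hp e hA hf, ?_⟩
    · funext I
      show ω (fun l => Φ.β (I (e l))) * evb Φ f I = _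
      rw [hfg, hω, ← Matrix.det_transpose, Matrix.det_apply']
      congr 1
      unfold dt
      refine Finset.sum_congr rfl fun σ _ => ?_
      congr 1
      by_cases h1 : ∀ m, I (e m) = t (σ m)
      · rw [if_pos h1]
        refine Finset.prod_eq_one fun m _ => ?_
        rw [transpose_apply, of_apply, bd_β, if_pos (h1 m).symm]
      · rw [if_neg h1]
        push Not at h1
        obtain ⟨m, hm⟩ := h1
        refine Finset.prod_eq_zero (mem_univ m) ?_
        rw [transpose_apply, of_apply, bd_β, if_neg (Ne.symm hm)]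

variable (φ : MultilinearMap F (fun _ : Fin k => Fin N → F) F)

include hst hss hcard in
theorem typ_invL [CharZero F] (hn : 0 < n)
    (hkill : ∀ u v, Φ.κ v = star (Φ.κ u) → ∀ w : Fin k → Fin N → F,
      ∑ j, φ (Function.update w j ((Pool.Agent.Y710.SV.sw s J (Φ.β v) (Φ.β u) -
        (Φ.Q v u / n) • (Φ.E (Φ.κ u) - Φ.E (Φ.κ v))) *ᵥ w j)) = 0) (τ : Fin k → Φ.T) :
    InvL Φ.κ Φ.Q star s (fun i => (((univ.filter fun x => τ x = i).card : F) -
      ((univ.filter fun x => τ x = star i).card : F)) / n) univ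
      (typ Φ.κ τ (fun I => φ (fun j => Φ.β (I j)))) := by
  classical
  have hnF : (n : F) ≠ 0 := Nat.cast_ne_zero.2 hn.ne'
  have hty : ∀ (I : Fin k → Φ.S) (j : Fin k) (y : Φ.S), Φ.κ y = Φ.κ (I j) →
      ((∀ l, Φ.κ (Function.update I j y l) = τ l) ↔ ∀ l, Φ.κ (I l) = τ l) := by
    intro I j y hy
    refine forall_congr' fun l => ?_
    by_cases h : l = j
    · subst h
      rw [Function.update_self, hy]
    · rw [Function.update_of_ne h]
  have hone : ∀ (b c : Φ.S) (_ : Φ.κ c = star (Φ.κ b)) (I : Fin k → Φ.S) (j : Fin k),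
      Φ.Q b (I j) * typ Φ.κ τ (fun I => φ (fun j => Φ.β (I j))) (Function.update I j c) =
        (if ∀ l, Φ.κ (I l) = τ l then 1 else 0) *
          (Φ.Q b (I j) * φ (fun i => Φ.β (Function.update I j c i))) := by
    intro b c hcb I j
    by_cases h : Φ.κ (I j) = star (Φ.κ b)
    · unfold typ
      have h3 := hty I j c (by rw [hcb, h])
      by_cases h4 : ∀ l, Φ.κ (I l) = τ l
      · rw [if_pos (h3.2 h4), if_pos h4, one_mul]
      · rw [if_neg (fun h5 => h4 (h3.1 h5)), if_neg h4, mul_zero, zero_mul]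
    · rw [Q_zero Φ hst hss h, zero_mul, zero_mul, mul_zero]
  intro u v huv I
  have hvu : Φ.κ u = star (Φ.κ v) := by rw [huv, hss]
  have h2 : ∀ (j : Fin k) (x : Φ.S), Function.update (fun j => Φ.β (I j)) j (Φ.β x) =
      fun i => Φ.β (Function.update I j x i) := by
    intro j x
    exact (Function.comp_update (fun y => Φ.β y) I j x).symm
  have h1 := hkill u v huv fun j => Φ.β (I j)
  have h3 : ∀ j, φ (Function.update (fun j => Φ.β (I j)) j ((Pool.Agent.Y710.SV.sw s J (Φ.β v) (Φ.β u) -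
        (Φ.Q v u / n) • (Φ.E (Φ.κ u) - Φ.E (Φ.κ v))) *ᵥ Φ.β (I j))) =
      (Φ.Q v (I j) * φ (fun i => Φ.β (Function.update I j u i)) -
        (s * Φ.Q u (I j)) * φ (fun i => Φ.β (Function.update I j v i))) -
      (Φ.Q v u / n) * (((if Φ.κ (I j) = Φ.κ u then 1 else 0) -
        (if Φ.κ (I j) = Φ.κ v then 1 else 0)) * φ fun j => Φ.β (I j)) := by
    intro j
    rw [sub_mulVec, sw_mulVec, MultilinearMap.map_update_sub, MultilinearMap.map_update_sub,
      MultilinearMap.map_update_smul, MultilinearMap.map_update_smul, h2, h2, Φ.hQ, Φ.hQ,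
      smul_mulVec, sub_mulVec, MultilinearMap.map_update_smul, MultilinearMap.map_update_sub,
      Φ.Eβ, Φ.Eβ]
    have h4 : ∀ (p : Prop) [Decidable p], φ (Function.update (fun j => Φ.β (I j)) j
        (if p then Φ.β (I j) else 0)) = (if p then 1 else 0) * φ fun j => Φ.β (I j) := by
      intro p _
      split_ifs
      · rw [h2, Function.update_eq_self, one_mul]
      · rw [MultilinearMap.map_update_zero, zero_mul]
    rw [h4, h4, sub_mul, Φ.hQ u (I j)]
    rfl
  rw [Finset.sum_congr rfl fun j _ => h3 j, Finset.sum_sub_distrib, ← Finset.mul_sum,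
    ← Finset.sum_mul, Finset.sum_sub_distrib (fun j => if Φ.κ (I j) = Φ.κ u then (1 : F) else 0),
    Finset.sum_boole, Finset.sum_boole] at h1
  have e2 : ∀ j ∈ (univ : Finset (Fin k)),
      (Φ.Q v (I j) * typ Φ.κ τ (fun I => φ (fun j => Φ.β (I j)))
        (Function.update I j u) - s * Φ.Q u (I j) *
        typ Φ.κ τ (fun I => φ (fun j => Φ.β (I j))) (Function.update I j v)) =
      (if ∀ l, Φ.κ (I l) = τ l then 1 else 0) *
        (Φ.Q v (I j) * φ (fun i => Φ.β (Function.update I j u i)) -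
        (s * Φ.Q u (I j)) * φ (fun i => Φ.β (Function.update I j v i))) := by
    intro j _
    rw [hone v u hvu I j, mul_assoc, hone u v huv I j]
    ring
  rw [Finset.sum_congr rfl e2, ← Finset.mul_sum]
  unfold typ
  by_cases hI : ∀ l, Φ.κ (I l) = τ l
  · rw [if_pos hI, if_pos hI, one_mul]
    have e3 : ∀ i, (univ.filter fun x => Φ.κ (I x) = i) = univ.filter fun x => τ x = i := by
      intro i
      refine Finset.filter_congr fun x _ => ?_
      rw [hI]
    rw [e3, e3] at h1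
    show _ = (((univ.filter fun x => τ x = Φ.κ u).card : F) -
      ((univ.filter fun x => τ x = star (Φ.κ u)).card : F)) / n * Φ.Q v u * _
    rw [← huv]
    field_simp
    field_simp at h1
    linear_combination h1
  · rw [if_neg hI, if_neg hI, zero_mul, mul_zero]

include hJ hst hss hal hcard in
/-- the theorem for a frame -/
theorem main_frm [CharZero F] (hs : s = 1 ∨ s = -1) (hn : 0 < n)
    (hkill : ∀ u v, Φ.κ v = star (Φ.κ u) → ∀ w : Fin k → Fin N → F,
      ∑ j, φ (Function.update w j ((Pool.Agent.Y710.SV.sw s J (Φ.β v) (Φ.β u) -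
        (Φ.Q v u / n) • (Φ.E (Φ.κ u) - Φ.E (Φ.κ v))) *ᵥ w j)) = 0) :
    (fun v => φ v) ∈ prdSpan (PP J 𝒞) (DD 𝒞 n al) (univ : Finset (Fin k)) := by
  classical
  have hnF : (n : F) ≠ 0 := Nat.cast_ne_zero.2 hn.ne'
  have h1 : ∀ τ : Fin k → Φ.T, typ Φ.κ τ (fun I => φ (fun j => Φ.β (I j))) ∈
      (prdSpan (PP J 𝒞) (DD 𝒞 n al) (univ : Finset (Fin k))).map (evb Φ) := by
    intro τ
    have h2 := fftD (κ := Φ.κ) (Q := Φ.Q) (R := Φ.R) (star := star) (s := s) (c := τ) hs hss
      (fun a b h => Q_zero Φ hst hss h) (fun a b h => R_zero Φ hst hss h)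
      (fun a b => by rw [Φ.hQ, Φ.hQ]; exact bil_s hJ _ _) Φ.QR
      (fun i => by rw [hcard, hcard]) _ univ rfl _ _ ⟨fun j hj => absurd (mem_univ j) hj,
        fun I hI j _ => by
          by_contra h0
          apply hI
          unfold typ
          rw [if_neg fun h => h0 (h j)]⟩ (typ_invL Φ hst hss hcard φ hn hkill τ)
      (fun j => by
        rw [hcard]
        field_simp)
    have h3 : TT Φ.κ Φ.Q star s τ (univ : Finset (Fin k)) ≤
        (prdSpan (PP J 𝒞) (DD 𝒞 n al) (univ : Finset (Fin k))).map (evb Φ) := by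
      unfold TT
      rw [Submodule.span_le]
      rintro g hg
      obtain ⟨f, hf, hfg⟩ := gen_prd Φ hst hss al hal hcard hg
      exact ⟨f, Submodule.subset_span hf, hfg⟩
    exact h3 h2
  have h2 : evb Φ (fun v => φ v) ∈
      (prdSpan (PP J 𝒞) (DD 𝒞 n al) (univ : Finset (Fin k))).map (evb Φ) := by
    have e0 : evb Φ (fun v => φ v) = fun I : Fin k → Φ.S => φ (fun j => Φ.β (I j)) := rfl
    rw [e0, ← sum_typ Φ.κ (fun I : Fin k → Φ.S => φ (fun j => Φ.β (I j)))]
    exact Submodule.sum_mem _ fun τ _ => h1 τ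
  obtain ⟨f, hf, hfφ⟩ := h2
  have h3 := mln_span (fun b hb => PP_bil hb) (fun m δ hδ => DD_ml hδ) hf
  have h4 : φ = h3.toMap := Φ.ext_ml φ h3.toMap fun I => (congrFun hfφ I).symm
  have h5 : (fun v => φ v) = f := by
    funext v
    rw [h4]
    rfl
  rw [h5]
  exact hf

end frame

end Pool.Agent.X274.DT
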